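import Mathlib

namespace Pool.Agent.K4H80.LD

open Finset

open Classical in
theorem blocks {V C : Type} [Fintype V] [Fintype C] (cell : V → C) (b c : ℕ) (hb : 0 < b)
    (hc : 0 < c) :
    ∃ (ι : Type) (_ : Fintype ι) (B : V → Option (ι × Fin c)) (cof : ι → C),
      (∀ v β i, B v = some (β, i) → cell v = cof β) ∧
      (∀ β i, #{v | B v = some (β, i)} ≤ b) ∧
      #{v | B v = none} ≤ Fintype.card C * (c * b) ∧
      Fintype.card ι * (c * b) ≤ Fintype.card V := by
  let N : C → ℕ := fun k => Fintype.card {v // cell v = k}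
  let e : ∀ k, {v // cell v = k} ≃ Fin (N k) := fun k => Fintype.equivFin _
  let p : V → ℕ := fun v => (e (cell v) ⟨v, rfl⟩).val
  have hp : ∀ v, p v < N (cell v) := fun v => (e (cell v) ⟨v, rfl⟩).2
  have hpi : ∀ v w, cell v = cell w → p v = p w → v = w := by
    intro v w h h1
    have key : ∀ (k : C) (hv : cell v = k) (hw : cell w = k),
        (e k ⟨v, hv⟩).val = (e k ⟨w, hw⟩).val → v = w := by
      intro k hv hw h2
      have := (e k).injective (Fin.ext h2)
      exact congrArg Subtype.val this
    have h3 : ∀ (k : C) (hk : cell w = k), (e (cell w) ⟨w, rfl⟩).val = (e k ⟨w, hk⟩).val := by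
      intro k hk; subst hk; rfl
    exact key (cell v) rfl h.symm (h1.trans (h3 _ h.symm))
  have hs : 0 < c * b := Nat.mul_pos hc hb
  let B : V → Option ((Σ k : C, Fin (N k / (c * b))) × Fin c) := fun v =>
    if h : p v / (c * b) < N (cell v) / (c * b) then
      some (⟨cell v, ⟨p v / (c * b), h⟩⟩, ⟨(p v % (c * b)) / b,
        Nat.div_lt_of_lt_mul (by rw [mul_comm b c]; exact Nat.mod_lt _ hs)⟩)
    else none
  refine ⟨Σ k : C, Fin (N k / (c * b)), inferInstance, B, Sigma.fst, ?_, ?_, ?_, ?_⟩
  · intro v β i h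
    simp only [B] at h
    split_ifs at h with h1
    have := congrArg (fun x => x.1.1) (Option.some.inj h)
    exact this
  · rintro ⟨k, j⟩ i
    have key : ∀ v, B v = some (⟨k, j⟩, i) → cell v = k ∧ p v / (c * b) = j.val ∧
        (p v % (c * b)) / b = i.val := by
      intro v h
      simp only [B] at h
      split_ifs at h with h1
      have h2 := Option.some.inj h
      have h3 : cell v = k := congrArg (fun x => x.1.1) h2
      refine ⟨h3, ?_, ?_⟩
      · exact congrArg (fun x => x.1.2.val) h2
      · exact congrArg (fun x => x.2.val) h2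
    have : #{v | B v = some (⟨k, j⟩, i)} ≤
        #(Ico ((c * b) * j.val + b * i.val) ((c * b) * j.val + b * i.val + b)) := by
      apply card_le_card_of_injOn p
      · intro v hv
        simp only [coe_filter, mem_univ, true_and, Set.mem_ofPred_eq] at hv
        obtain ⟨h1, h2, h3⟩ := key v hv
        rw [Finset.coe_Ico, Set.mem_Ico]
        have e1 := Nat.div_add_mod (p v) (c * b)
        have e2 := Nat.div_add_mod (p v % (c * b)) b
        have e3 := Nat.mod_lt (p v % (c * b)) hb
        rw [h2] at e1
        rw [h3] at e2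
        omega
      · intro v hv w hw h
        simp only [coe_filter, mem_univ, true_and, Set.mem_ofPred_eq] at hv hw
        exact hpi v w ((key v hv).1.trans (key w hw).1.symm) h
    refine (le_of_eq ?_).trans (this.trans ?_)
    · congr!
    · simp
  · have h1 : #{v | B v = none} ≤ (c * b) * #(univ : Finset C) := by
      apply card_le_mul_card_image_of_maps_to (f := cell)
      · intro v _; exact mem_univ _
      · intro k _
        have : #{v ∈ ({v | B v = none} : Finset V) | cell v = k} ≤
            #(Ico ((c * b) * (N k / (c * b))) (N k)) := by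
          apply card_le_card_of_injOn p
          · intro v hv
            simp only [coe_filter, mem_filter, mem_univ, true_and, Set.mem_ofPred_eq] at hv
            obtain ⟨h1, rfl⟩ := hv
            rw [Finset.coe_Ico, Set.mem_Ico]
            refine ⟨?_, hp v⟩
            simp only [B] at h1
            split_ifs at h1 with h2
            have h3 := not_lt.1 h2
            calc c * b * (N (cell v) / (c * b)) ≤ c * b * (p v / (c * b)) :=
                  Nat.mul_le_mul_left _ h3
              _ ≤ p v := Nat.mul_div_le _ _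
          · intro v hv w hw h
            simp only [coe_filter, mem_filter, mem_univ, true_and, Set.mem_ofPred_eq] at hv hw
            exact hpi v w (hv.2.trans hw.2.symm) h
        refine this.trans ?_
        rw [Nat.card_Ico]
        have e1 := Nat.div_add_mod (N k) (c * b)
        have e2 := Nat.mod_lt (N k) hs
        omega
    refine (le_of_eq ?_).trans (h1.trans (le_of_eq ?_))
    · congr!
    · rw [card_univ]; ring
  · rw [Fintype.card_sigma, sum_mul]
    calc ∑ k : C, Fintype.card (Fin (N k / (c * b))) * (c * b) ≤ ∑ k : C, N k := by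
          refine sum_le_sum fun k _ => ?_
          rw [Fintype.card_fin]
          exact Nat.div_mul_le_self _ _
      _ = Fintype.card V := by
          rw [← Fintype.card_congr (Equiv.sigmaFiberEquiv cell), Fintype.card_sigma]

theorem small_subsets (c : ℕ) (hc : 0 < c) : ∃ γ : ℝ, 0 < γ ∧ ∀ (b : ℕ) {P : Type} (S : Finset P),
    #S ≤ c * b → (#{T ∈ S.powerset | (#T : ℝ) ≤ γ * (c * b : ℕ)} : ℝ) ≤ 2 ^ b := by
  classical
  have hc' : (1 : ℝ) ≤ c := by exact_mod_cast hc
  set w : ℝ := 4 * c with hw
  have hw4 : 4 ≤ w := by linarith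
  have hw0 : 0 < w := by linarith
  have hlog : 0 < Real.log w := Real.log_pos (by linarith)
  refine ⟨1 / (w * Real.log w), by positivity, ?_⟩
  intro b P S hS
  set g : ℝ := 1 / (w * Real.log w) * (c * b : ℕ) with hg
  have hgb : g * Real.log w = b / 4 := by
    have h0 : Real.log w ≠ 0 := hlog.ne'
    rw [hg]
    push_cast
    field_simp
    rw [hw]
    ring
  have h1 : (#{T ∈ S.powerset | (#T : ℝ) ≤ g} : ℝ) ≤
      ∑ T ∈ S.powerset, Real.exp (g * Real.log w) * (w⁻¹) ^ #T := by
    rw [card_filter]
    push_cast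
    refine sum_le_sum fun T _ => ?_
    split_ifs with h
    · have : (w⁻¹) ^ #T = Real.exp (-(#T * Real.log w)) := by
        rw [Real.exp_neg, mul_comm, Real.exp_mul, Real.exp_log hw0, Real.rpow_natCast, inv_pow]
      rw [this, ← Real.exp_add]
      apply Real.one_le_exp
      have : (#T : ℝ) * Real.log w ≤ g * Real.log w := mul_le_mul_of_nonneg_right h hlog.le
      linarith
    · positivity
  refine h1.trans ?_
  rw [← mul_sum]
  have h2 : ∑ T ∈ S.powerset, (w⁻¹) ^ #T = (w⁻¹ + 1) ^ #S := by
    rw [← Finset.sum_pow_mul_eq_add_pow]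
    simp
  rw [h2, hgb]
  have h3 : (w⁻¹ + 1) ^ #S ≤ Real.exp (b / 4) := by
    calc (w⁻¹ + 1) ^ #S ≤ (Real.exp w⁻¹) ^ #S := by
          apply pow_le_pow_left₀ (by positivity)
          exact Real.add_one_le_exp _
      _ = Real.exp (#S * w⁻¹) := by rw [← Real.exp_nat_mul]
      _ ≤ Real.exp (b / 4) := by
          apply Real.exp_le_exp.2
          have : (#S : ℝ) ≤ c * b := by exact_mod_cast hS
          calc (#S : ℝ) * w⁻¹ ≤ c * b * w⁻¹ := by gcongr
            _ = b / 4 := by rw [hw]; field_simp
  calc Real.exp (b / 4) * (w⁻¹ + 1) ^ #S ≤ Real.exp (b / 4) * Real.exp (b / 4) := by gcongr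
    _ = Real.exp (b * (1 / 2)) := by rw [← Real.exp_add]; congr 1; ring
    _ ≤ Real.exp (b * Real.log 2) := by
        apply Real.exp_le_exp.2
        have := Real.log_two_gt_d9
        gcongr
        linarith
    _ = 2 ^ b := by
        rw [mul_comm, Real.exp_mul, Real.exp_log (by norm_num), Real.rpow_natCast]

open Classical in
theorem cut {V : Type} (Z : Finset V) (b : ℕ) (hb : 0 < b) :
    ∃ W : ℕ → Finset V, (∀ z ∈ Z, ∃ j ∈ range (#Z / b + 1), z ∈ W j) ∧ (∀ j, #(W j) ≤ b) ∧
      ∀ v, #{j ∈ range (#Z / b + 1) | v ∈ W j} ≤ 1 := by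
  let e : Z ≃ Fin #Z := Z.equivFin
  let p : V → ℕ := fun v => if h : v ∈ Z then (e ⟨v, h⟩).val else 0
  have hp : ∀ v ∈ Z, p v < #Z := by
    intro v hv
    simp only [p, dif_pos hv]
    exact (e ⟨v, hv⟩).2
  have hpi : ∀ v ∈ Z, ∀ w ∈ Z, p v = p w → v = w := by
    intro v hv w hw h
    simp only [p, dif_pos hv, dif_pos hw] at h
    have := e.injective (Fin.ext h)
    exact congrArg Subtype.val this
  refine ⟨fun j => {v ∈ Z | p v / b = j}, ?_, ?_, ?_⟩
  · intro z hz
    refine ⟨p z / b, ?_, mem_filter.2 ⟨hz, rfl⟩⟩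
    rw [mem_range]
    have : p z / b ≤ #Z / b := Nat.div_le_div_right (hp z hz).le
    omega
  · intro j
    have : #{v ∈ Z | p v / b = j} ≤ #(Ico (b * j) (b * j + b)) := by
      apply card_le_card_of_injOn p
      · intro v hv
        simp only [coe_filter, Set.mem_ofPred_eq] at hv
        rw [Finset.coe_Ico, Set.mem_Ico]
        have e1 := Nat.div_add_mod (p v) b
        have e2 := Nat.mod_lt (p v) hb
        rw [hv.2] at e1
        omega
      · intro v hv w hw h
        simp only [coe_filter, Set.mem_ofPred_eq] at hv hw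
        exact hpi v hv.1 w hw.1 h
    refine this.trans ?_
    simp
  · intro v
    rw [card_le_one]
    intro j hj j' hj'
    rw [mem_filter, mem_filter] at hj hj'
    exact hj.2.2.symm.trans hj'.2.2

end Pool.Agent.K4H80.LD
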