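import Mathlib

namespace Pool.Agent.K4H80.LD

open Finset

open Classical in
/-- the edges of a triangle-free graph can be distributed to their end points so that nobody gets
more than `N / 4 + 1` of them -/
theorem orient {ι : Type} [Fintype ι] (H : SimpleGraph ι) (hH : H.CliqueFree 3) :
    ∃ φ : ι → ι → Prop, (∀ β β', H.Adj β β' → φ β β' ∨ φ β' β) ∧
      (∀ β β', φ β β' → H.Adj β β') ∧
      ∀ β', #{β | φ β β'} ≤ Fintype.card ι / 4 + 1 := by
  set d := Fintype.card ι / 4 + 1 with hd
  let t : H.edgeFinset → Finset (ι × Fin d) := fun e => {p | p.1 ∈ e.val}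
  have hall : ∀ s : Finset H.edgeFinset, #s ≤ #(s.biUnion t) := by
    intro s
    let U : Finset ι := {v | ∃ e ∈ s, v ∈ e.val}
    have h1 : s.biUnion t = U ×ˢ univ := by
      ext ⟨v, i⟩
      simp [t, U]
    rw [h1, card_product, card_univ, Fintype.card_fin]
    let HU := H.induce (U : Set ι)
    have h2 : s.map (Function.Embedding.subtype _) ⊆
        (HU.edgeFinset).image (Sym2.map Subtype.val) := by
      intro e he
      rw [mem_map] at he
      obtain ⟨e, he, rfl⟩ := he
      obtain ⟨e, hee⟩ := e
      induction e using Sym2.ind with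
      | _ x y =>
        rw [mem_image]
        have hx : x ∈ U := by
          simp only [U, mem_filter, mem_univ, true_and]
          exact ⟨_, he, Sym2.mem_mk_left x y⟩
        have hy : y ∈ U := by
          simp only [U, mem_filter, mem_univ, true_and]
          exact ⟨_, he, Sym2.mem_mk_right x y⟩
        refine ⟨s(⟨x, hx⟩, ⟨y, hy⟩), ?_, rfl⟩
        rw [SimpleGraph.mem_edgeFinset] at hee ⊢
        exact hee
    have h3 : #s ≤ #(HU.edgeFinset) := by
      have := card_le_card h2
      rw [card_map] at this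
      exact this.trans card_image_le
    have h4 : HU.CliqueFree 3 := by
      exact SimpleGraph.CliqueFree.comap ⟨(SimpleGraph.Embedding.induce (G := H) (U : Set ι)).toCopy⟩ hH
    have h5 := h4.card_edgeFinset_le (r := 2)
    simp only at h5
    have h6 : Fintype.card ((U : Set ι) : Type) = #U := by simp
    rw [h6] at h5
    have h7 : #U ≤ Fintype.card ι := card_le_univ _
    have h8 : #U % 2 < 2 := Nat.mod_lt _ (by norm_num)
    have h9 : (#U % 2).choose 2 = 0 := Nat.choose_eq_zero_of_lt h8
    rw [h9] at h5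
    have h10 : #(HU.edgeFinset) ≤ (#U)^2 / 4 := by
      refine h5.trans ?_
      simp only [Nat.add_zero]
      have : (#U ^ 2 - (#U % 2) ^ 2) * (2 - 1) ≤ #U ^ 2 := by
        simp
      exact Nat.div_le_div_right this
    refine h3.trans (h10.trans ?_)
    have h11 : Fintype.card ι < 4 * d := by omega
    have h12 : (#U)^2 / 4 ≤ #U * d := by
      apply Nat.div_le_of_le_mul
      calc (#U)^2 = #U * #U := by ring
        _ ≤ #U * (4 * d) := Nat.mul_le_mul_left _ (by omega)
        _ = 4 * (#U * d) := by ring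
    exact h12
  obtain ⟨f, hf, hft⟩ := (Finset.all_card_le_biUnion_card_iff_exists_injective t).1 hall
  refine ⟨fun β β' => ∃ h : s(β, β') ∈ H.edgeFinset, (f ⟨s(β, β'), h⟩).1 = β', ?_, ?_, ?_⟩
  · intro β β' h
    have h1 : s(β, β') ∈ H.edgeFinset := by
      rw [SimpleGraph.mem_edgeFinset]; exact h
    have h2 := hft ⟨s(β, β'), h1⟩
    simp only [t, mem_filter, mem_univ, true_and, Sym2.mem_iff] at h2
    rcases h2 with h2 | h2
    · right
      have h3 : s(β', β) ∈ H.edgeFinset := by rw [Sym2.eq_swap]; exact h1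
      refine ⟨h3, ?_⟩
      have : (⟨s(β', β), h3⟩ : H.edgeFinset) = ⟨s(β, β'), h1⟩ := by
        apply Subtype.ext; exact Sym2.eq_swap
      rw [this]; exact h2
    · left
      exact ⟨h1, h2⟩
  · rintro β β' ⟨h, -⟩
    rw [SimpleGraph.mem_edgeFinset] at h
    exact h
  · intro β'
    have : #{β | ∃ h : s(β, β') ∈ H.edgeFinset, (f ⟨s(β, β'), h⟩).1 = β'} ≤
        #(univ : Finset (Fin d)) := by
      apply card_le_card_of_injOn (fun β => if h : s(β, β') ∈ H.edgeFinset then
        (f ⟨s(β, β'), h⟩).2 else ⟨0, by omega⟩)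
      · intro β _; simp
      · intro β hβ γ hγ h
        simp only [coe_filter, mem_univ, true_and, Set.mem_ofPred_eq] at hβ hγ
        obtain ⟨h1, h2⟩ := hβ
        obtain ⟨h3, h4⟩ := hγ
        simp only [h1, h3, dif_pos] at h
        have h5 : f ⟨s(β, β'), h1⟩ = f ⟨s(γ, β'), h3⟩ := Prod.ext (h2.trans h4.symm) h
        have h6 := congrArg Subtype.val (hf h5)
        simp only at h6
        exact Sym2.congr_left.1 h6
    rw [card_univ, Fintype.card_fin] at this
    convert this

end Pool.Agent.K4H80.LD
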