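import Pool.Agent.K4H80.LDim.Cover
import Pool.Agent.K4H80.LDim.Orient
import Pool.Agent.K4H80.LDim.Blocks

namespace Pool.Agent.K4H80.LD

open Finset

theorem pat_subset {V : Type} [PartialOrder V] (S : Finset V) (y : V) : pat S y ⊆ S := by
  classical
  exact filter_subset _ _

open Classical in
theorem pat_card {V : Type} [PartialOrder V] (S Y : Finset V) (b : ℕ) (h : #S ≤ b) :
    #(Y.image (pat S)) ≤ 2 ^ b := by
  have : Y.image (pat S) ⊆ S.powerset := by
    intro T hT
    obtain ⟨y, -, rfl⟩ := mem_image.1 hT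
    exact mem_powerset.2 (pat_subset S y)
  refine (card_le_card this).trans ?_
  rw [card_powerset]
  exact Nat.pow_le_pow_right (by norm_num) h

open Classical in
/-- covering all pairs touching a small set `Z` -/
theorem cov_Z {V : Type} [PartialOrder V] [Fintype V] (Z : Finset V) (b : ℕ) (hb : 0 < b) :
    Cov (fun x y : V => Inc x y ∧ (x ∈ Z ∨ y ∈ Z)) (fun _ => 2 * (#Z / b + 1) + 2 * 2 ^ b) := by
  obtain ⟨W, h1, h2, h3⟩ := cut Z b hb
  have key := cov_jobs (P := V) ((range (#Z / b + 1)) ×ˢ (univ : Finset Bool)) (fun p => W p.1)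
    (fun _ => univ) (fun p => p.2) (2 ^ b) (fun p _ => pat_card _ _ _ (h2 p.1))
  refine key.mono ?_ ?_
  · rintro x y ⟨hxy, (hx | hy)⟩
    · obtain ⟨j, hj, hxj⟩ := h1 x hx
      exact ⟨hxy, (j, false), mem_product.2 ⟨hj, mem_univ _⟩, Or.inr ⟨rfl, hxj, mem_univ _⟩⟩
    · obtain ⟨j, hj, hyj⟩ := h1 y hy
      exact ⟨hxy, (j, true), mem_product.2 ⟨hj, mem_univ _⟩, Or.inl ⟨rfl, hyj, mem_univ _⟩⟩
  · intro v
    apply Nat.add_le_add
    · refine (card_filter_le _ _).trans ?_
      rw [card_product, card_range, card_univ, Fintype.card_bool]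
      omega
    · apply Nat.mul_le_mul_right
      have : {j ∈ (range (#Z / b + 1)) ×ˢ (univ : Finset Bool) | v ∈ W j.1} =
          {j ∈ range (#Z / b + 1) | v ∈ W j} ×ˢ (univ : Finset Bool) := by
        ext ⟨j, o⟩
        simp
      rw [this, card_product, card_univ, Fintype.card_bool]
      have := h3 v
      omega

section main

variable {V C ι : Type} [Fintype V] [PartialOrder V] [Fintype ι] {c : ℕ}

open Classical in
/-- the blocks as finsets -/
noncomputable def Sp (B : V → Option (ι × Fin c)) (β : ι) : Finset V :=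
  {v | ∃ i, B v = some (β, i)}

open Classical in
noncomputable def Ss (B : V → Option (ι × Fin c)) (p : ι × Fin c) : Finset V :=
  {v | B v = some p}

omit [PartialOrder V] [Fintype ι] in
theorem mem_Sp (B : V → Option (ι × Fin c)) (β : ι) (v : V) :
    v ∈ Sp B β ↔ ∃ i, B v = some (β, i) := by simp [Sp]

omit [PartialOrder V] [Fintype ι] in
theorem mem_Ss (B : V → Option (ι × Fin c)) (p : ι × Fin c) (v : V) :
    v ∈ Ss B p ↔ B v = some p := by simp [Ss]

open Classical in
omit [PartialOrder V] [Fintype ι] in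
theorem Sp_card (B : V → Option (ι × Fin c)) (b : ℕ) (hB : ∀ β i, #(Ss B (β, i)) ≤ b) (β : ι) :
    #(Sp B β) ≤ c * b := by
  have h1 : Sp B β = (univ : Finset (Fin c)).biUnion (fun i => Ss B (β, i)) := by
    ext v
    simp [mem_Sp, mem_Ss]
  rw [h1]
  refine card_biUnion_le.trans ?_
  refine (sum_le_sum (fun i _ => hB β i)).trans ?_
  simp

open Classical in
theorem cov_T (B : V → Option (ι × Fin c)) (b : ℕ) (hB : ∀ β i, #(Ss B (β, i)) ≤ b)
    (g pT : ℕ) (hpT : ∀ S : Finset V, #S ≤ c * b → #{T ∈ S.powerset | #T ≤ g} ≤ pT)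
    (Bad : V → V → Prop) (Y : ι → Finset V) (D : V → ι → Prop)
    (hY : ∀ β, ∀ y ∈ Y β, #{x ∈ Sp B β | Bad y x} ≤ g)
    (hD : ∀ β, ∀ y ∈ Y β, ∀ x ∈ Sp B β, ¬ Bad y x → (Inc y x ↔ D y β)) :
    Cov (fun x y : V => Inc x y ∧ ∃ β, y ∈ Sp B β ∧ x ∈ Y β)
      (fun _ => Fintype.card ι + 2 * pT) := by
  have hpat : ∀ β ∈ (univ : Finset ι), #((Y β).image (pat (Sp B β))) ≤ 2 * pT := by
    intro β _
    set A := {T ∈ (Sp B β).powerset | #T ≤ g} with hA
    have hsub : (Y β).image (pat (Sp B β)) ⊆ A ∪ A.image (fun T => Sp B β \ T) := by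
      intro T hT
      obtain ⟨y, hy, rfl⟩ := mem_image.1 hT
      rw [mem_union]
      by_cases hDy : D y β
      · right
        rw [mem_image]
        refine ⟨Sp B β \ pat (Sp B β) y, ?_, ?_⟩
        · rw [hA, mem_filter, mem_powerset]
          refine ⟨sdiff_subset, le_trans (card_le_card ?_) (hY β y hy)⟩
          intro x hx
          rw [mem_sdiff] at hx
          rw [mem_filter]
          refine ⟨hx.1, ?_⟩
          by_contra hb
          apply hx.2
          exact mem_filter.2 ⟨hx.1, (hD β y hy x hx.1 hb).2 hDy⟩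
        · exact Finset.sdiff_sdiff_eq_self (pat_subset _ _)
      · left
        rw [hA, mem_filter, mem_powerset]
        refine ⟨pat_subset _ _, le_trans (card_le_card ?_) (hY β y hy)⟩
        intro x hx
        have hx' := mem_filter.1 hx
        rw [mem_filter]
        refine ⟨hx'.1, ?_⟩
        by_contra hb
        exact hDy ((hD β y hy x hx'.1 hb).1 hx'.2)
    refine (card_le_card hsub).trans ((card_union_le _ _).trans ?_)
    have h1 : #A ≤ pT := hpT (Sp B β) (Sp_card B b hB β)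
    have h2 : #(A.image (fun T => Sp B β \ T)) ≤ #A := card_image_le
    omega
  have key := cov_jobs (P := V) (univ : Finset ι) (Sp B) Y (fun _ => true) (2 * pT) hpat
  refine key.mono ?_ ?_
  · rintro x y ⟨hxy, β, hy, hx⟩
    exact ⟨hxy, β, mem_univ _, Or.inl ⟨rfl, hy, hx⟩⟩
  · intro v
    apply Nat.add_le_add
    · exact (card_filter_le _ _)
    · have : #{j ∈ (univ : Finset ι) | v ∈ Sp B j} ≤ 1 := by
        rw [card_le_one]
        intro j hj j' hj'
        rw [mem_filter, mem_Sp] at hj hj'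
        obtain ⟨-, i, hi⟩ := hj
        obtain ⟨-, i', hi'⟩ := hj'
        rw [hi] at hi'
        exact congrArg Prod.fst (Option.some.inj hi')
      calc _ ≤ 1 * (2 * pT) := Nat.mul_le_mul_right _ this
        _ = 2 * pT := one_mul _

open Classical in
theorem cov_A (B : V → Option (ι × Fin c)) (b : ℕ) (hB : ∀ β i, #(Ss B (β, i)) ≤ b)
    (g m : ℕ) (Bad : V → V → Prop) (Y : ι → Finset V)
    (hY : ∀ β, ∀ y ∈ Y β, g < #{x ∈ Sp B β | Bad y x})
    (hm : ∀ β, ∀ y ∈ Y β, #{x | Bad y x} ≤ m) :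
    Cov (fun x y : V => Inc x y ∧ ∃ β, y ∈ Sp B β ∧ x ∈ Y β)
      (fun _ => c * (m / (g + 1)) + 2 ^ b) := by
  have key := cov_jobs (P := V) (univ : Finset (ι × Fin c)) (Ss B) (fun p => Y p.1)
    (fun _ => true) (2 ^ b) (fun p _ => pat_card _ _ _ (hB p.1 p.2))
  refine key.mono ?_ ?_
  · rintro x y ⟨hxy, β, hy, hx⟩
    rw [mem_Sp] at hy
    obtain ⟨i, hi⟩ := hy
    exact ⟨hxy, (β, i), mem_univ _, Or.inl ⟨rfl, (mem_Ss _ _ _).2 hi, hx⟩⟩
  · intro v
    apply Nat.add_le_add
    · have h1 : {j ∈ (univ : Finset (ι × Fin c)) | v ∈ Y j.1} =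
          {β ∈ (univ : Finset ι) | v ∈ Y β} ×ˢ (univ : Finset (Fin c)) := by
        ext ⟨j, o⟩
        simp
      rw [h1, card_product, card_univ, Fintype.card_fin, mul_comm]
      apply Nat.mul_le_mul_left
      rw [Nat.le_div_iff_mul_le (Nat.succ_pos g)]
      rcases ({β ∈ (univ : Finset ι) | v ∈ Y β}).eq_empty_or_nonempty with h0 | ⟨β0, hβ0⟩
      · rw [h0]; simp
      · have hv := (mem_filter.1 hβ0).2
        refine le_trans ?_ (hm β0 v hv)
        have h2 : ∑ β ∈ {β ∈ (univ : Finset ι) | v ∈ Y β}, (g + 1) ≤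
            ∑ β ∈ {β ∈ (univ : Finset ι) | v ∈ Y β}, #{x ∈ Sp B β | Bad v x} :=
          sum_le_sum fun β hβ => hY β v (mem_filter.1 hβ).2
        rw [sum_const, smul_eq_mul] at h2
        refine h2.trans ?_
        rw [← card_biUnion]
        · apply card_le_card
          intro x hx
          obtain ⟨β, -, hx⟩ := mem_biUnion.1 hx
          rw [mem_filter]
          exact ⟨mem_univ _, (mem_filter.1 hx).2⟩
        · intro β _ β' _ hne
          rw [Function.onFun, disjoint_left]
          intro x hx hx'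
          have h3 := (mem_Sp B β x).1 (mem_filter.1 hx).1
          have h4 := (mem_Sp B β' x).1 (mem_filter.1 hx').1
          obtain ⟨i, hi⟩ := h3
          obtain ⟨i', hi'⟩ := h4
          rw [hi] at hi'
          exact hne (congrArg Prod.fst (Option.some.inj hi'))
    · have : #{j ∈ (univ : Finset (ι × Fin c)) | v ∈ Ss B j} ≤ 1 := by
        rw [card_le_one]
        intro j hj j' hj'
        rw [mem_filter, mem_Ss] at hj hj'
        exact Option.some.inj (hj.2.symm.trans hj'.2)
      calc _ ≤ 1 * 2 ^ b := Nat.mul_le_mul_right _ this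
        _ = 2 ^ b := one_mul _

open Classical in
theorem cov_M (B : V → Option (ι × Fin c)) (b : ℕ) (hB : ∀ β i, #(Ss B (β, i)) ≤ b)
    (φ : ι → ι → Prop) (d : ℕ) (hφ : ∀ β', #{β | φ β β'} ≤ d) (od : ι → ℕ) :
    Cov (fun x y : V => Inc x y ∧ ∃ β β' i i', B x = some (β, i) ∧ B y = some (β', i') ∧
      (φ β β' ∨ φ β' β) ∧ od β' < od β)
      (fun _ => c * d + 2 * 2 ^ b) := by
  have key := cov_jobs (P := V) (univ : Finset ((ι × Fin c) × Bool)) (fun p => Ss B p.1)
    (fun p => {y | ∃ β' i', B y = some (β', i') ∧ φ p.1.1 β' ∧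
      ((p.2 = true ∧ od p.1.1 < od β') ∨ (p.2 = false ∧ od β' < od p.1.1))})
    (fun p => p.2) (2 ^ b) (fun p _ => pat_card _ _ _ (hB p.1.1 p.1.2))
  refine key.mono ?_ ?_
  · rintro x y ⟨hxy, β, β', i, i', hx, hy, hor, hod⟩
    refine ⟨hxy, ?_⟩
    rcases hor with hor | hor
    · -- `φ β β'`: `y`'s block pays, pattern side is `x`'s block
      refine ⟨((β, i), false), mem_univ _, Or.inr ⟨rfl, (mem_Ss _ _ _).2 hx, ?_⟩⟩
      rw [mem_filter]
      exact ⟨mem_univ _, β', i', hy, hor, Or.inr ⟨rfl, hod⟩⟩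
    · refine ⟨((β', i'), true), mem_univ _, Or.inl ⟨rfl, (mem_Ss _ _ _).2 hy, ?_⟩⟩
      rw [mem_filter]
      exact ⟨mem_univ _, β, i, hx, hor, Or.inl ⟨rfl, hod⟩⟩
  · intro v
    apply Nat.add_le_add
    · rcases hv : B v with _ | ⟨β', i'⟩
      · refine le_trans (le_of_eq ?_) (Nat.zero_le _)
        rw [card_eq_zero, filter_eq_empty_iff]
        rintro p - hp
        rw [mem_filter] at hp
        obtain ⟨-, β1, i1, h1, -⟩ := hp
        rw [hv] at h1
        cases h1
      · have : #{p ∈ (univ : Finset ((ι × Fin c) × Bool)) | v ∈ ({y | ∃ β' i', B y = some (β', i') ∧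
            φ p.1.1 β' ∧ ((p.2 = true ∧ od p.1.1 < od β') ∨ (p.2 = false ∧ od β' < od p.1.1))} :
            Finset V)} ≤ #((univ : Finset (Fin c)) ×ˢ ({β | φ β β'} : Finset ι)) := by
          apply card_le_card_of_injOn (fun p => (p.1.2, p.1.1))
          · intro p hp
            simp only [coe_filter, mem_univ, true_and, Set.mem_ofPred_eq, mem_filter] at hp
            obtain ⟨β1, i1, h1, h2, -⟩ := hp
            rw [hv] at h1
            have h3 : β' = β1 := congrArg Prod.fst (Option.some.inj h1)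
            rw [mem_coe, mem_product, mem_filter]
            refine ⟨mem_univ _, mem_univ _, ?_⟩
            rw [h3]; exact h2
          · rintro ⟨⟨β1, i1⟩, o1⟩ hp ⟨⟨β2, i2⟩, o2⟩ hp' h
            simp only [coe_filter, mem_univ, true_and, Set.mem_ofPred_eq, mem_filter] at hp hp'
            simp only [Prod.mk.injEq] at h
            obtain ⟨rfl, rfl⟩ := h
            obtain ⟨β3, i3, h1, -, h2⟩ := hp
            obtain ⟨β4, i4, h1', -, h2'⟩ := hp'
            rw [h1] at h1'
            have h3 : β3 = β4 := congrArg Prod.fst (Option.some.inj h1')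
            subst h3
            have : o1 = o2 := by
              rcases h2 with h2 | h2 <;> rcases h2' with h2' | h2'
              · exact h2.1.trans h2'.1.symm
              · omega
              · omega
              · exact h2.1.trans h2'.1.symm
            rw [this]
        refine this.trans ?_
        rw [card_product, card_univ, Fintype.card_fin]
        exact Nat.mul_le_mul_left _ (hφ β')
    · apply Nat.mul_le_mul_right
      have : {j ∈ (univ : Finset ((ι × Fin c) × Bool)) | v ∈ Ss B j.1} =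
          {j ∈ (univ : Finset (ι × Fin c)) | v ∈ Ss B j} ×ˢ (univ : Finset Bool) := by
        ext ⟨j, o⟩
        simp
      rw [this, card_product, card_univ, Fintype.card_bool]
      have : #{j ∈ (univ : Finset (ι × Fin c)) | v ∈ Ss B j} ≤ 1 := by
        rw [card_le_one]
        intro j hj j' hj'
        rw [mem_filter, mem_Ss] at hj hj'
        exact Option.some.inj (hj.2.symm.trans hj'.2)
      omega

end main

open Classical in
theorem assemble {V C : Type} [Fintype V] [PartialOrder V] [Fintype C] (r : V → ℕ)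
    (hri : Function.Injective r) (hr : ∀ x y, x ≤ y → r x ≤ r y) (q : ℕ)
    (hq : ∀ x, r x < q * q) (cell : V → C) (Mx : SimpleGraph C) (hM : Mx.CliqueFree 3)
    (od : C → ℕ) (hod : ∀ k k', Mx.Adj k k' → od k ≠ od k')
    (hod2 : ∀ x y, od (cell x) < od (cell y) → r x < r y)
    (D : C → C → Prop) (Bad : V → V → Prop)
    (hBad : ∀ x y, ¬ Mx.Adj (cell x) (cell y) → ¬ Bad x y → (Inc x y ↔ D (cell x) (cell y)))
    (b c : ℕ) (hb : 0 < b) (hc : 0 < c) (g pT : ℕ)
    (hpT : ∀ S : Finset V, #S ≤ c * b → #{T ∈ S.powerset | #T ≤ g} ≤ pT)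
    (Z0 : Finset V) (m : ℕ) (hZ0 : ∀ y ∉ Z0, #{x | Bad y x} ≤ m) :
    Cov (fun x y : V => ¬ y ≤ x) (fun _ => 2 * q +
      ((Fintype.card V / (c * b) + 2 * pT) + ((c * (m / (g + 1)) + 2 ^ b) +
        ((c * (Fintype.card V / (c * b) / 4 + 1) + 2 * 2 ^ b) +
          (2 * ((#Z0 + Fintype.card C * (c * b)) / b + 1) + 2 * 2 ^ b))))) := by
  obtain ⟨ι, _, B, cof, hB1, hB2, hB3, hB4⟩ := blocks cell b c hb hc
  have hB2' : ∀ β i, #(Ss B (β, i)) ≤ b := hB2
  have hcι : Fintype.card ι ≤ Fintype.card V / (c * b) := by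
    rw [Nat.le_div_iff_mul_le (Nat.mul_pos hc hb)]
    exact hB4
  set Z : Finset V := Z0 ∪ univ.filter (fun v => B v = none) with hZ
  have hZc : #Z ≤ #Z0 + Fintype.card C * (c * b) :=
    (card_union_le _ _).trans (Nat.add_le_add_left hB3 _)
  let H : SimpleGraph ι := Mx.comap cof
  have hH : H.CliqueFree 3 := by
    intro s hs
    rw [SimpleGraph.is3Clique_iff] at hs
    obtain ⟨β1, β2, β3, h12, h13, h23, -⟩ := hs
    apply hM {cof β1, cof β2, cof β3}
    rw [SimpleGraph.is3Clique_iff]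
    exact ⟨_, _, _, h12, h13, h23, rfl⟩
  obtain ⟨φ, hφ1, hφ2, hφ3⟩ := orient H hH
  have c0 := cov_free r hr q hq
  have cT := cov_T B b hB2' g pT hpT Bad
    (fun β => {y | ¬ Mx.Adj (cell y) (cof β) ∧ #{x ∈ Sp B β | Bad y x} ≤ g})
    (fun y β => D (cell y) (cof β))
    (fun β y hy => (mem_filter.1 hy).2.2) (by
      intro β y hy x hx hxb
      obtain ⟨i, hi⟩ := (mem_Sp _ _ _).1 hx
      have h1 : cell x = cof β := hB1 x β i hi
      rw [← h1]
      apply hBad y x _ hxb
      rw [h1]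
      exact (mem_filter.1 hy).2.1)
  have cA := cov_A B b hB2' g m Bad
    (fun β => {y | y ∉ Z ∧ ¬ Mx.Adj (cell y) (cof β) ∧ g < #{x ∈ Sp B β | Bad y x}})
    (fun β y hy => (mem_filter.1 hy).2.2.2) (by
      intro β y hy
      apply hZ0 y
      intro h
      exact (mem_filter.1 hy).2.1 (mem_union_left _ h))
  have cM := cov_M B b hB2' φ (Fintype.card ι / 4 + 1) hφ3 (fun β => od (cof β))
  have cZ := cov_Z Z b hb
  refine (c0.or (cT.or (cA.or (cM.or cZ)))).mono ?_ ?_
  · intro x y hxy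
    rcases lt_or_ge (r x) (r y) with h | h
    · exact Or.inl h
    right
    have hne : x ≠ y := by rintro rfl; exact hxy le_rfl
    have hlt : r y < r x := lt_of_le_of_ne h (fun h' => hne (hri h').symm)
    have hinc : Inc x y := ⟨fun h' => absurd (hr x y h') (not_le.2 hlt), hxy⟩
    by_cases hxZ : x ∈ Z
    · exact Or.inr (Or.inr (Or.inr ⟨hinc, Or.inl hxZ⟩))
    by_cases hyZ : y ∈ Z
    · exact Or.inr (Or.inr (Or.inr ⟨hinc, Or.inr hyZ⟩))
    have hx1 : B x ≠ none := fun h' => hxZ (mem_union_right _ (mem_filter.2 ⟨mem_univ _, h'⟩))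
    have hy1 : B y ≠ none := fun h' => hyZ (mem_union_right _ (mem_filter.2 ⟨mem_univ _, h'⟩))
    obtain ⟨⟨β, i⟩, hx⟩ := Option.ne_none_iff_exists'.1 hx1
    obtain ⟨⟨β', i'⟩, hy⟩ := Option.ne_none_iff_exists'.1 hy1
    have hcx := hB1 x β i hx
    have hcy := hB1 y β' i' hy
    by_cases hadj : Mx.Adj (cell x) (cell y)
    · refine Or.inr (Or.inr (Or.inl ⟨hinc, β, β', i, i', hx, hy, hφ1 β β' ?_, ?_⟩))
      · show Mx.Adj (cof β) (cof β')
        rw [← hcx, ← hcy]; exact hadj
      · rw [← hcx, ← hcy]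
        rcases lt_trichotomy (od (cell x)) (od (cell y)) with h' | h' | h'
        · exact absurd (hod2 x y h') (not_lt.2 h)
        · exact absurd h' (hod _ _ hadj)
        · exact h'
    · by_cases hg : #{z ∈ Sp B β' | Bad x z} ≤ g
      · refine Or.inl ⟨hinc, β', (mem_Sp _ _ _).2 ⟨i', hy⟩, ?_⟩
        rw [mem_filter]
        refine ⟨mem_univ _, ?_, hg⟩
        rw [← hcy]; exact hadj
      · refine Or.inr (Or.inl ⟨hinc, β', (mem_Sp _ _ _).2 ⟨i', hy⟩, ?_⟩)
        rw [mem_filter]
        refine ⟨mem_univ _, hxZ, ?_, not_le.1 hg⟩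
        rw [← hcy]; exact hadj
  · intro v
    have e1 : c * (Fintype.card ι / 4 + 1) ≤ c * (Fintype.card V / (c * b) / 4 + 1) :=
      Nat.mul_le_mul_left _ (Nat.add_le_add_right (Nat.div_le_div_right hcι) _)
    have e2 : #Z / b ≤ (#Z0 + Fintype.card C * (c * b)) / b := Nat.div_le_div_right hZc
    omega

end Pool.Agent.K4H80.LD
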