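import Pool.Agent.K4H80.LDim.Defs

namespace Pool.Agent.K4H80.LD

open Finset

theorem cov_free {P : Type} [PartialOrder P] (r : P → ℕ)
    (hr : ∀ x y, x ≤ y → r x ≤ r y) (q : ℕ) (hq : ∀ x, r x < q * q) :
    Cov (fun x y : P => r x < r y) (fun _ => 2 * q) := by
  classical
  let A : ℕ → P → Option (Fin 2) := fun τ v => if r v / q ≤ τ then some 0 else some 1
  let B : ℕ × ℕ → P → Option (Fin 2) := fun p v =>
    if r v / q = p.1 then (if r v % q ≤ p.2 then some 0 else some 1) else none
  refine ⟨(range q).image A ∪ ((range q) ×ˢ (range q)).image B, ?_, ?_, ?_⟩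
  · intro f hf
    rcases mem_union.1 hf with hf | hf
    · obtain ⟨τ, -, rfl⟩ := mem_image.1 hf
      intro x y a b hx hy hxy
      have h1 : r x / q ≤ r y / q := Nat.div_le_div_right (hr x y hxy)
      simp only [A] at hx hy
      split_ifs at hx hy with h2 h3 h3
      · obtain rfl := Option.some.inj hx; obtain rfl := Option.some.inj hy; exact le_rfl
      · obtain rfl := Option.some.inj hx; exact Fin.zero_le _
      · omega
      · obtain rfl := Option.some.inj hx; obtain rfl := Option.some.inj hy; exact le_rfl
    · obtain ⟨⟨u, τ⟩, -, rfl⟩ := mem_image.1 hf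
      intro x y a b hx hy hxy
      have h0 := hr x y hxy
      simp only [B] at hx hy
      have h1 : r x / q = u := by
        by_contra h; rw [if_neg h] at hx; cases hx
      have h2 : r y / q = u := by
        by_contra h; rw [if_neg h] at hy; cases hy
      rw [if_pos h1] at hx
      rw [if_pos h2] at hy
      have e1 := Nat.div_add_mod (r x) q
      have e2 := Nat.div_add_mod (r y) q
      rw [h1] at e1
      rw [h2] at e2
      split_ifs at hx hy with h3 h4 h4
      all_goals (obtain rfl := Option.some.inj hx; obtain rfl := Option.some.inj hy)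
      · exact le_rfl
      · exact Fin.zero_le _
      · omega
      · exact le_rfl
  · intro x y hxy
    rcases lt_or_eq_of_le (Nat.div_le_div_right (c := q) hxy.le) with h | h
    · refine ⟨A (r x / q), mem_union_left _ (mem_image_of_mem _ (mem_range.2 ?_)), ?_, ?_⟩
      · exact Nat.div_lt_of_lt_mul (hq x)
      · simp [A]
      · simp only [A]
        rw [if_neg (not_le.2 h)]
    · have hq0 : 0 < q := by
        rcases Nat.eq_zero_or_pos q with h0 | h0
        · have := hq x
          rw [h0] at this
          omega
        · exact h0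
      refine ⟨B (r x / q, r x % q), mem_union_right _ (mem_image_of_mem _
        (mem_product.2 ⟨mem_range.2 ?_, mem_range.2 ?_⟩)), ?_, ?_⟩
      · exact Nat.div_lt_of_lt_mul (hq x)
      · exact Nat.mod_lt _ hq0
      · simp [B]
      · simp only [B]
        rw [if_pos h.symm, if_neg]
        have e1 := Nat.div_add_mod (r x) q
        have e2 := Nat.div_add_mod (r y) q
        rw [h] at e1
        omega
  · intro v
    rw [filter_union, two_mul]
    refine (card_union_le _ _).trans (Nat.add_le_add ?_ ?_)
    · refine (card_filter_le _ _).trans (card_image_le.trans ?_)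
      simp
    · have : filter (fun f => f v ≠ none) (((range q) ×ˢ (range q)).image B) ⊆
          ((range q).image (fun τ => B (r v / q, τ))) := by
        intro f hf
        rw [mem_filter, mem_image] at hf
        obtain ⟨⟨⟨u, τ⟩, hp, rfl⟩, h⟩ := hf
        rw [mem_image]
        refine ⟨τ, (mem_product.1 hp).2, ?_⟩
        have : r v / q = u := by
          by_contra h1
          apply h
          simp [B, h1]
        rw [this]
      refine (card_le_card this).trans (card_image_le.trans ?_)
      simp

/-- incomparable -/
def Inc {P : Type} [PartialOrder P] (x y : P) : Prop := ¬ x ≤ y ∧ ¬ y ≤ x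

theorem Inc.symm {P : Type} [PartialOrder P] {x y : P} (h : Inc x y) : Inc y x := ⟨h.2, h.1⟩

open Classical in
/-- the pattern of `y` on `S` -/
noncomputable def pat {P : Type} [PartialOrder P] (S : Finset P) (y : P) : Finset P :=
  S.filter (fun x => Inc y x)

open Classical in
theorem cov_jobs {P : Type} [PartialOrder P] {ι : Type} (J : Finset ι) (S Y : ι → Finset P)
    (o : ι → Bool) (pb : ℕ) (hp : ∀ j ∈ J, #((Y j).image (pat (S j))) ≤ pb) :
    Cov (fun a b : P => Inc a b ∧ ∃ j ∈ J, (o j = true ∧ b ∈ S j ∧ a ∈ Y j) ∨
      (o j = false ∧ a ∈ S j ∧ b ∈ Y j))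
      (fun v => #{j ∈ J | v ∈ Y j} + #{j ∈ J | v ∈ S j} * pb) := by
  let hi : ι → Fin 2 := fun j => if o j = true then 1 else 0
  let lo : ι → Fin 2 := fun j => if o j = true then 0 else 1
  let F : ι → Finset P → P → Option (Fin 2) := fun j T v =>
    if v ∈ T then some (hi j) else if v ∈ Y j ∧ pat (S j) v = T then some (lo j) else none
  refine ⟨J.biUnion fun j => ((Y j).image (pat (S j))).image (F j), ?_, ?_, ?_⟩
  · intro f hf
    obtain ⟨j, hj, hf⟩ := mem_biUnion.1 hf
    obtain ⟨T, hT, rfl⟩ := mem_image.1 hf
    intro x y a b hx hy hxy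
    simp only [F] at hx hy
    split_ifs at hx hy with h1 h2 h3 h4 h5 h6
    · obtain rfl := Option.some.inj hx; obtain rfl := Option.some.inj hy; exact le_rfl
    · exfalso
      have : x ∈ pat (S j) y := by rw [h3.2]; exact h1
      exact (mem_filter.1 this).2.2 hxy
    · exfalso
      have : y ∈ pat (S j) x := by rw [h4.2]; exact h5
      exact (mem_filter.1 this).2.1 hxy
    · obtain rfl := Option.some.inj hx; obtain rfl := Option.some.inj hy; exact le_rfl
  · rintro a b ⟨hab, j, hj, (⟨ho, hb, ha⟩ | ⟨ho, ha, hb⟩)⟩
    · refine ⟨F j (pat (S j) a), mem_biUnion.2 ⟨j, hj, mem_image_of_mem _ (mem_image_of_mem _ ha)⟩,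
        ?_, ?_⟩
      · have h1 : a ∉ pat (S j) a := by
          intro h
          exact (mem_filter.1 h).2.1 le_rfl
        simp only [F]
        rw [if_neg h1]
        simp [lo, ho, ha]
      · have h1 : b ∈ pat (S j) a := mem_filter.2 ⟨hb, hab⟩
        simp only [F]
        rw [if_pos h1]
        simp [hi, ho]
    · refine ⟨F j (pat (S j) b), mem_biUnion.2 ⟨j, hj, mem_image_of_mem _ (mem_image_of_mem _ hb)⟩,
        ?_, ?_⟩
      · have h1 : a ∈ pat (S j) b := mem_filter.2 ⟨ha, hab.symm⟩
        simp only [F]
        rw [if_pos h1]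
        simp [hi, ho]
      · have h1 : b ∉ pat (S j) b := by
          intro h
          exact (mem_filter.1 h).2.1 le_rfl
        simp only [F]
        rw [if_neg h1]
        simp [lo, ho, hb]
  · intro v
    rw [filter_biUnion]
    refine card_biUnion_le.trans ?_
    have h1 : ∀ j ∈ J, #(filter (fun f => f v ≠ none) (((Y j).image (pat (S j))).image (F j))) ≤
        (if v ∈ Y j then 1 else 0) + (if v ∈ S j then pb else 0) := by
      intro j hj
      have h2 : filter (fun f => f v ≠ none) (((Y j).image (pat (S j))).image (F j)) ⊆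
          (if v ∈ Y j then {F j (pat (S j) v)} else ∅) ∪
          (if v ∈ S j then ((Y j).image (pat (S j))).image (F j) else ∅) := by
        intro f hf
        obtain ⟨hf, hv⟩ := mem_filter.1 hf
        obtain ⟨T, hT, rfl⟩ := mem_image.1 hf
        simp only [F] at hv
        rw [mem_union]
        by_cases h3 : v ∈ T
        · right
          obtain ⟨y, hy, rfl⟩ := mem_image.1 hT
          have h4 : v ∈ S j := (mem_filter.1 h3).1
          rw [if_pos h4]
          exact hf
        · rw [if_neg h3] at hv
          by_cases h4 : v ∈ Y j ∧ pat (S j) v = T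
          · left
            rw [if_pos h4.1, h4.2]
            exact mem_singleton_self _
          · rw [if_neg h4] at hv
            exact absurd rfl hv
      refine (card_le_card h2).trans ((card_union_le _ _).trans (Nat.add_le_add ?_ ?_))
      · split_ifs <;> simp
      · split_ifs
        · exact card_image_le.trans (hp j hj)
        · simp
    refine (sum_le_sum h1).trans ?_
    rw [sum_add_distrib]
    refine Nat.add_le_add ?_ ?_
    · rw [← sum_filter]; simp
    · rw [← sum_filter]; simp

end Pool.Agent.K4H80.LD
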