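import Mathlib

namespace Pool.Agent.K4H80.LD

open Finset

/-- A monotone partial function `P → {0 < 1 < ⋯ < t-1}`; `f x = none` means `x ∉ dom f`. -/
def IsMono {P : Type} [PartialOrder P] {t : ℕ} (f : P → Option (Fin t)) : Prop :=
  ∀ x y : P, ∀ a b : Fin t, f x = some a → f y = some b → x ≤ y → a ≤ b

/-- A local `t`-realiser of `P`. -/
def IsRealiser {P : Type} [PartialOrder P] (t : ℕ) (R : Set (P → Option (Fin t))) : Prop :=
  (∀ f ∈ R, IsMono f) ∧
    ∀ x y : P, ¬ y ≤ x → ∃ f ∈ R, ∃ a b : Fin t, f x = some a ∧ f y = some b ∧ a < b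

/-- The multiplicity of `x` in `R`. -/
noncomputable def mult {P : Type} {t : ℕ} (R : Set (P → Option (Fin t))) (x : P) : ℕ :=
  {f | f ∈ R ∧ f x ≠ none}.ncard

/-- The local `t`-dimension of `P`. -/
noncomputable def ldim (P : Type) [PartialOrder P] (t : ℕ) : ℕ :=
  sInf {m : ℕ | ∃ R : Set (P → Option (Fin t)), IsRealiser t R ∧ m = ⨆ x : P, mult R x}

/-- `M t n` is the maximum of the local `t`-dimension over all posets with `n` elements. -/
noncomputable def M (t n : ℕ) : ℕ :=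
  sSup {d : ℕ | ∃ o : PartialOrder (Fin n), d = @ldim (Fin n) o t}

section basic

variable {P : Type} [PartialOrder P] [Finite P] {t : ℕ}

omit [PartialOrder P] in
theorem mult_le_of (R : Set (P → Option (Fin t))) (x : P) :
    mult R x ≤ Nat.card (P → Option (Fin t)) := by
  unfold mult
  exact (Set.ncard_le_card _)

omit [PartialOrder P] in
theorem bdd_mult (R : Set (P → Option (Fin t))) : BddAbove (Set.range fun x => mult R x) :=
  Set.Finite.bddAbove (Set.finite_range _)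

omit [Finite P] in
/-- two-point function -/
theorem all_realiser (ht : 2 ≤ t) : IsRealiser t {f : P → Option (Fin t) | IsMono f} := by
  classical
  refine ⟨fun f hf => hf, fun x y hxy => ?_⟩
  have hne : x ≠ y := by rintro rfl; exact hxy le_rfl
  refine ⟨fun z => if z = x then some ⟨0, by omega⟩ else if z = y then some ⟨1, by omega⟩ else none,
    ?_, ⟨0, by omega⟩, ⟨1, by omega⟩, by simp, by simp [hne.symm], ?_⟩
  · intro u v a b hu hv huv
    simp only at hu hv
    split_ifs at hu hv with h1 h2 h3 h4 h5 h6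
    all_goals simp_all
    all_goals (subst hu; subst hv; first | exact le_rfl | exact Fin.mk_le_mk.2 (by omega))
  · exact Fin.mk_lt_mk.2 (by omega)

theorem exists_realiser (ht : 2 ≤ t) :
    ∃ R : Set (P → Option (Fin t)), IsRealiser t R ∧ ∀ x, mult R x ≤ ldim P t := by
  have hne : {m : ℕ | ∃ R : Set (P → Option (Fin t)), IsRealiser t R ∧ m = ⨆ x : P, mult R x}.Nonempty :=
    ⟨_, _, all_realiser ht, rfl⟩
  obtain ⟨R, hR, h⟩ := Nat.sInf_mem hne
  refine ⟨R, hR, fun x => ?_⟩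
  have := le_ciSup (bdd_mult R) x
  unfold ldim
  rw [h]
  exact this

omit [Finite P] in
theorem ldim_le {L : ℕ} (R : Set (P → Option (Fin t))) (hR : IsRealiser t R)
    (h : ∀ x, mult R x ≤ L) : ldim P t ≤ L := by
  have h0 : (⨆ x : P, mult R x) ∈
      {m : ℕ | ∃ R : Set (P → Option (Fin t)), IsRealiser t R ∧ m = ⨆ x : P, mult R x} :=
    ⟨R, hR, rfl⟩
  exact (Nat.sInf_le h0).trans (ciSup_le' h)

theorem ldim_le_card (ht : 2 ≤ t) : ldim P t ≤ Nat.card (P → Option (Fin t)) :=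
  ldim_le _ (all_realiser ht) fun x => mult_le_of _ x

end basic

theorem bdd_M {t n : ℕ} (ht : 2 ≤ t) :
    BddAbove {d : ℕ | ∃ o : PartialOrder (Fin n), d = @ldim (Fin n) o t} := by
  refine ⟨Nat.card (Fin n → Option (Fin t)), ?_⟩
  rintro d ⟨o, rfl⟩
  exact ldim_le_card ht

theorem ldim_le_M {t n : ℕ} (ht : 2 ≤ t) (o : PartialOrder (Fin n)) : @ldim (Fin n) o t ≤ M t n :=
  le_csSup (bdd_M ht) ⟨o, rfl⟩

theorem M_le {t n L : ℕ} (h : ∀ o : PartialOrder (Fin n), @ldim (Fin n) o t ≤ L) : M t n ≤ L := by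
  refine csSup_le' ?_
  rintro d ⟨o, rfl⟩
  exact h o

/-- a cover by two-valued monotone partial functions with load at most `L` -/
def Cov {P : Type} [PartialOrder P] (Q : P → P → Prop) (L : P → ℕ) : Prop :=
  ∃ R : Finset (P → Option (Fin 2)), (∀ f ∈ R, IsMono f) ∧
    (∀ x y, Q x y → ∃ f ∈ R, f x = some 0 ∧ f y = some 1) ∧
    ∀ v, #{f ∈ R | f v ≠ none} ≤ L v

theorem Cov.or {P : Type} [PartialOrder P] {Q Q' : P → P → Prop} {L L' : P → ℕ}
    (h : Cov Q L) (h' : Cov Q' L') : Cov (fun x y => Q x y ∨ Q' x y) (fun v => L v + L' v) := by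
  classical
  obtain ⟨R, h1, h2, h3⟩ := h
  obtain ⟨R', h1', h2', h3'⟩ := h'
  refine ⟨R ∪ R', ?_, ?_, ?_⟩
  · intro f hf
    rcases mem_union.1 hf with hf | hf
    · exact h1 f hf
    · exact h1' f hf
  · rintro x y (hxy | hxy)
    · obtain ⟨f, hf, h⟩ := h2 x y hxy
      exact ⟨f, mem_union_left _ hf, h⟩
    · obtain ⟨f, hf, h⟩ := h2' x y hxy
      exact ⟨f, mem_union_right _ hf, h⟩
  · intro v
    rw [filter_union]
    exact (card_union_le _ _).trans (Nat.add_le_add (h3 v) (h3' v))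

theorem Cov.mono {P : Type} [PartialOrder P] {Q Q' : P → P → Prop} {L L' : P → ℕ}
    (h : Cov Q L) (hQ : ∀ x y, Q' x y → Q x y) (hL : ∀ v, L v ≤ L' v) : Cov Q' L' := by
  obtain ⟨R, h1, h2, h3⟩ := h
  exact ⟨R, h1, fun x y hxy => h2 x y (hQ x y hxy), fun v => (h3 v).trans (hL v)⟩

/-- From a two-valued cover of all pairs `x ≱ y` to a bound for `ldim P t`. -/
theorem ldim_le_of_cov {P : Type} [PartialOrder P] [Finite P] {t L : ℕ} (ht : 2 ≤ t)
    (h : Cov (fun x y : P => ¬ y ≤ x) (fun _ => L)) : ldim P t ≤ L := by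
  classical
  obtain ⟨R, h1, h2, h3⟩ := h
  let e : Fin 2 → Fin t := Fin.castLE ht
  let g : (P → Option (Fin 2)) → (P → Option (Fin t)) := fun f x => (f x).map e
  refine ldim_le (↑(R.image g) : Set (P → Option (Fin t))) ⟨?_, ?_⟩ ?_
  · intro f hf
    rw [Finset.mem_coe, mem_image] at hf
    obtain ⟨f, hf, rfl⟩ := hf
    intro x y a b hx hy hxy
    simp only [g, Option.map_eq_some_iff] at hx hy
    obtain ⟨a, ha, rfl⟩ := hx
    obtain ⟨b, hb, rfl⟩ := hy
    have := h1 f hf x y a b ha hb hxy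
    exact this
  · intro x y hxy
    obtain ⟨f, hf, hx, hy⟩ := h2 x y hxy
    refine ⟨g f, ?_, e 0, e 1, ?_, ?_, ?_⟩
    · rw [Finset.mem_coe, mem_image]; exact ⟨f, hf, rfl⟩
    · simp [g, hx]
    · simp [g, hy]
    · simp [e, Fin.lt_def]
  · intro x
    unfold mult
    have : {f | f ∈ (↑(R.image g) : Set (P → Option (Fin t))) ∧ f x ≠ none} ⊆
        ↑((R.filter (fun f => f x ≠ none)).image g) := by
      rintro f ⟨hf, hfx⟩
      rw [Finset.mem_coe, mem_image] at hf ⊢
      obtain ⟨f, hf, rfl⟩ := hf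
      refine ⟨f, mem_filter.2 ⟨hf, ?_⟩, rfl⟩
      intro h0
      apply hfx
      simp [g, h0]
    refine (Set.ncard_le_ncard this (Finset.finite_toSet _)).trans ?_
    rw [Set.ncard_coe_finset]
    exact card_image_le.trans (h3 x)

end Pool.Agent.K4H80.LD
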