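import Pool.Agent.K4H80.LDim.Defs

namespace Pool.Agent.K4H80.LD

open Finset

section words

variable {A : Type}

def encB : List A → List (A × Bool)
  | [] => []
  | [a] => [(a, true)]
  | a :: b :: l => (a, false) :: encB (b :: l)

def dec : List (A × Bool) → List (List A)
  | [] => []
  | (a, true) :: l => [a] :: dec l
  | (a, false) :: l => match dec l with
    | [] => [[a]]
    | b :: bs => (a :: b) :: bs

theorem encB_length (l : List A) : (encB l).length = l.length := by
  induction l using encB.induct with
  | case1 => rfl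
  | case2 a => rfl
  | case3 a b l ih => simp [encB, ih]

theorem dec_encB (l : List A) (hl : l ≠ []) (r : List (A × Bool)) :
    dec (encB l ++ r) = l :: dec r := by
  induction l using encB.induct with
  | case1 => exact absurd rfl hl
  | case2 a => rfl
  | case3 a b l ih =>
    have := ih (by simp)
    simp only [encB, List.cons_append, dec]
    rw [this]

theorem dec_enc (ls : List (List A)) :
    dec (ls.flatMap encB) = ls.filter (fun l => !l.isEmpty) := by
  induction ls with
  | nil => rfl
  | cons l ls ih =>
    rw [List.flatMap_cons]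
    rcases l with _ | ⟨a, l⟩
    · simpa [encB] using ih
    · rw [dec_encB _ (by simp), ih]
      simp

theorem enc_length (ls : List (List A)) :
    (ls.flatMap encB).length = (ls.map List.length).sum := by
  induction ls with
  | nil => rfl
  | cons l ls ih => simp [List.flatMap_cons, ih, encB_length]

def Bef (ls : List (List A)) (u v : A) : Prop :=
  ∃ l1 l2, ls = l1 ++ l2 ∧ (∃ s ∈ l1, u ∈ s) ∧ (∃ s ∈ l2, v ∈ s)

theorem bef_filter (ls : List (List A)) (u v : A) :
    Bef (ls.filter (fun l => !l.isEmpty)) u v ↔ Bef ls u v := by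
  constructor
  · rintro ⟨l1, l2, h, ⟨s, hs, hus⟩, ⟨s', hs', hvs⟩⟩
    rw [List.filter_eq_append_iff] at h
    obtain ⟨m1, m2, rfl, rfl, rfl⟩ := h
    exact ⟨m1, m2, rfl, ⟨s, (List.mem_filter.1 hs).1, hus⟩, ⟨s', (List.mem_filter.1 hs').1, hvs⟩⟩
  · rintro ⟨l1, l2, rfl, ⟨s, hs, hus⟩, ⟨s', hs', hvs⟩⟩
    refine ⟨l1.filter (fun l => !l.isEmpty), l2.filter (fun l => !l.isEmpty), by simp, ?_, ?_⟩
    · refine ⟨s, List.mem_filter.2 ⟨hs, ?_⟩, hus⟩
      rcases s with _ | _
      · simp at hus
      · rfl
    · refine ⟨s', List.mem_filter.2 ⟨hs', ?_⟩, hvs⟩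
      rcases s' with _ | _
      · simp at hvs
      · rfl

def Rel (w : List ((A × Bool) × Bool)) (u v : A) : Prop := ∃ W ∈ dec w, Bef (dec W) u v

end words

section enc

variable {n t : ℕ}

def lev (f : Fin n → Option (Fin t)) : List (List (Fin n)) :=
  (List.finRange t).map (fun a => (List.finRange n).filter (fun x => f x = some a))

theorem bef_lev (f : Fin n → Option (Fin t)) (u v : Fin n) :
    Bef (lev f) u v ↔ ∃ a b, f u = some a ∧ f v = some b ∧ a < b := by
  constructor
  · rintro ⟨l1, l2, h, ⟨s, hs, hus⟩, ⟨s', hs', hvs⟩⟩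
    unfold lev at h
    rw [List.map_eq_append_iff] at h
    obtain ⟨m1, m2, h0, rfl, rfl⟩ := h
    rw [List.mem_map] at hs hs'
    obtain ⟨a, ha, rfl⟩ := hs
    obtain ⟨b, hb, rfl⟩ := hs'
    refine ⟨a, b, by simpa using hus, by simpa using hvs, ?_⟩
    have hp : (List.finRange t).Pairwise (· < ·) := List.pairwise_lt_finRange t
    rw [h0, List.pairwise_append] at hp
    exact hp.2.2 a ha b hb
  · rintro ⟨a, b, ha, hb, hab⟩
    have hd : List.finRange t = (List.finRange t).take b ++ (List.finRange t).drop b :=
      (List.take_append_drop _ _).symm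
    refine ⟨((List.finRange t).take b).map (fun a => (List.finRange n).filter (fun x => f x = some a)),
      ((List.finRange t).drop b).map (fun a => (List.finRange n).filter (fun x => f x = some a)),
      ?_, ?_, ?_⟩
    · unfold lev
      rw [← List.map_append, List.take_append_drop]
    · refine ⟨_, List.mem_map.2 ⟨a, ?_, rfl⟩, by simpa using ha⟩
      rw [List.mem_take_iff_getElem]
      refine ⟨a, ?_, ?_⟩
      · simp only [List.length_finRange, lt_inf_iff]
        exact ⟨hab, a.2⟩
      · simp
    · refine ⟨_, List.mem_map.2 ⟨b, ?_, rfl⟩, by simpa using hb⟩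
      rw [List.mem_drop_iff_getElem]
      refine ⟨0, ?_, ?_⟩
      · simp
      · simp

theorem lev_length (f : Fin n → Option (Fin t)) :
    ((lev f).map List.length).sum = #{x | f x ≠ none} := by
  classical
  unfold lev
  rw [List.map_map]
  have h1 : ((List.finRange t).map (List.length ∘ fun a => (List.finRange n).filter
      (fun x => f x = some a))).sum = ∑ a : Fin t, #{x | f x = some a} := by
    rw [← List.sum_ofFn]
    congr 1
    rw [List.ofFn_eq_map]
    apply List.map_congr_left
    intro a _
    simp only [Function.comp_apply]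
    rw [← List.toFinset_card_of_nodup ((List.nodup_finRange n).filter _)]
    congr 1
    ext x
    simp
  rw [h1, ← card_biUnion]
  · congr 1
    ext x
    simp only [mem_biUnion, mem_univ, true_and, mem_filter]
    exact Option.ne_none_iff_exists'.symm
  · intro a _ b _ hab
    rw [Function.onFun, disjoint_left]
    intro x hx hx'
    simp only [mem_filter, mem_univ, true_and] at hx hx'
    rw [hx] at hx'
    exact hab (Option.some.inj hx')

noncomputable def encR (R : Finset (Fin n → Option (Fin t))) : List ((Fin n × Bool) × Bool) :=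
  (R.toList.map (fun f => (lev f).flatMap encB)).flatMap encB

theorem rel_encR (R : Finset (Fin n → Option (Fin t))) (u v : Fin n) :
    Rel (encR R) u v ↔ ∃ f ∈ R, ∃ a b, f u = some a ∧ f v = some b ∧ a < b := by
  unfold Rel encR
  rw [dec_enc]
  constructor
  · rintro ⟨W, hW, h⟩
    rw [List.mem_filter, List.mem_map] at hW
    obtain ⟨⟨f, hf, rfl⟩, -⟩ := hW
    rw [dec_enc, bef_filter, bef_lev] at h
    exact ⟨f, Finset.mem_toList.1 hf, h⟩
  · rintro ⟨f, hf, h⟩
    rw [← bef_lev] at h
    refine ⟨_, List.mem_filter.2 ⟨List.mem_map.2 ⟨f, Finset.mem_toList.2 hf, rfl⟩, ?_⟩, ?_⟩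
    · by_contra hcon
      have h0 : (lev f).flatMap encB = [] := by
        simpa using hcon
      have h1 := dec_enc (lev f)
      rw [h0] at h1
      rw [← bef_filter, ← h1] at h
      obtain ⟨l1, l2, h2, ⟨s, hs, -⟩, -⟩ := h
      simp only [dec] at h2
      have := List.append_eq_nil_iff.1 h2.symm
      rw [this.1] at hs
      simp at hs
    · rw [dec_enc, bef_filter]
      exact h

theorem encR_length (R : Finset (Fin n → Option (Fin t))) :
    (encR R).length = ∑ x, #{f ∈ R | f x ≠ none} := by
  classical
  unfold encR
  rw [enc_length, List.map_map]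
  have : (R.toList.map (List.length ∘ fun f => (lev f).flatMap encB)).sum =
      ∑ f ∈ R, #{x | f x ≠ none} := by
    rw [← Finset.sum_map_toList]
    congr 1
    apply List.map_congr_left
    intro f _
    simp only [Function.comp_apply]
    rw [enc_length, lev_length]
  rw [this]
  simp only [card_filter]
  rw [sum_comm]

end enc

section count

variable {α : Type}

def toWord {L : ℕ} (g : Fin L → Option α) : List α := (List.ofFn g).reduceOption

theorem toWord_get {L : ℕ} (w : List α) (hw : w.length ≤ L) :
    toWord (fun i : Fin L => w[i.val]?) = w := by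
  unfold toWord
  have h : List.ofFn (fun i : Fin L => w[i.val]?) =
      w.map some ++ List.replicate (L - w.length) none := by
    apply List.ext_getElem
    · simp; omega
    · intro i h1 h2
      rw [List.getElem_ofFn, List.getElem_append]
      split_ifs with h3
      · rw [List.length_map] at h3
        simp [List.getElem_map, h3]
      · rw [List.length_map] at h3
        rw [List.getElem_replicate]
        simp at h3 ⊢
        omega
  rw [h, List.reduceOption_append, List.reduceOption_replicate_none, List.append_nil]
  clear h hw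
  induction w with
  | nil => rfl
  | cons a w ih => rw [List.map_cons, List.reduceOption_cons_of_some, ih]

end count

/-- the height-two poset of a bipartite relation -/
@[instance_reducible] def bip (a b : ℕ) (S : Fin a → Fin b → Bool) :
    PartialOrder (Fin (a + b)) where
  le x y := x = y ∨ ∃ i j, x.val = i.val ∧ y.val = a + j.val ∧ S i j = true
  lt x y := (x = y ∨ ∃ i j, x.val = i.val ∧ y.val = a + j.val ∧ S i j = true) ∧
    ¬ (y = x ∨ ∃ i j, y.val = i.val ∧ x.val = a + j.val ∧ S i j = true)
  lt_iff_le_not_ge _ _ := Iff.rfl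
  le_refl x := Or.inl rfl
  le_trans x y z := by
    rintro (rfl | ⟨i, j, h1, h2, h3⟩) (rfl | ⟨i', j', h1', h2', h3'⟩)
    · exact Or.inl rfl
    · exact Or.inr ⟨i', j', h1', h2', h3'⟩
    · exact Or.inr ⟨i, j, h1, h2, h3⟩
    · exfalso
      have := i'.2
      omega
  le_antisymm x y := by
    rintro (rfl | ⟨i, j, h1, h2, h3⟩) (h | ⟨i', j', h1', h2', h3'⟩)
    · rfl
    · rfl
    · exact h.symm
    · exfalso
      have := i'.2
      omega

theorem lower (a b t : ℕ) (ht : 2 ≤ t) :
    2 ^ (a * b) ≤ (4 * (a + b) + 1) ^ ((a + b) * M t (a + b)) := by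
  classical
  set L := (a + b) * M t (a + b) with hL
  have key : ∀ S : Fin a → Fin b → Bool, ∃ g : Fin L → Option ((Fin (a + b) × Bool) × Bool),
      ∀ u v : Fin (a + b), Rel (toWord g) u v ↔ ¬ (bip a b S).le v u := by
    intro S
    let o := bip a b S
    obtain ⟨R, ⟨hR1, hR2⟩, hm⟩ := exists_realiser (P := Fin (a + b)) ht
    have hfin : R.Finite := Set.toFinite R
    set R' := hfin.toFinset with hR'
    have hlen : (encR R').length ≤ L := by
      rw [encR_length, hL]
      calc ∑ x, #{f ∈ R' | f x ≠ none} ≤ ∑ x : Fin (a + b), M t (a + b) := by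
            refine sum_le_sum fun x _ => ?_
            refine le_trans ?_ ((hm x).trans (ldim_le_M ht o))
            unfold mult
            rw [← Set.ncard_coe_finset]
            apply le_of_eq
            congr 1
            ext f
            rw [Finset.mem_coe, mem_filter, hR', Set.Finite.mem_toFinset]
            rfl
        _ = (a + b) * M t (a + b) := by simp
    refine ⟨fun i => (encR R')[i.val]?, fun u v => ?_⟩
    rw [toWord_get _ hlen, rel_encR]
    constructor
    · rintro ⟨f, hf, x, y, hx, hy, hxy⟩ hle
      have := hR1 f ((Set.Finite.mem_toFinset _).1 hf) v u y x hy hx hle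
      exact absurd hxy (not_lt.2 this)
    · intro h
      obtain ⟨f, hf, h⟩ := hR2 u v h
      exact ⟨f, (Set.Finite.mem_toFinset _).2 hf, h⟩
  choose g hg using key
  have hinj : Function.Injective g := by
    intro S S' h
    funext i j
    have h1 := hg S ⟨a + j.val, by omega⟩ ⟨i.val, by omega⟩
    have h2 := hg S' ⟨a + j.val, by omega⟩ ⟨i.val, by omega⟩
    rw [h] at h1
    have h3 := not_iff_not.1 (h1.symm.trans h2)
    have e : ∀ S : Fin a → Fin b → Bool,
        (bip a b S).le (⟨i.val, by omega⟩ : Fin (a + b)) ⟨a + j.val, by omega⟩ ↔ S i j = true := by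
      intro S
      constructor
      · rintro (h | ⟨i', j', h1, h2, h3⟩)
        · rw [Fin.mk.injEq] at h
          omega
        · have e1 : i = i' := Fin.ext h1
          have e2 : j = j' := Fin.ext (by simp at h2; omega)
          rw [e1, e2]; exact h3
      · intro h
        exact Or.inr ⟨i, j, rfl, rfl, h⟩
    rw [e S, e S'] at h3
    exact Bool.eq_iff_iff.2 h3
  have hc := Fintype.card_le_of_injective g hinj
  simp only [Fintype.card_fun, Fintype.card_bool, Fintype.card_fin, Fintype.card_option,
    Fintype.card_prod] at hc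
  rw [← pow_mul, mul_comm b a] at hc
  refine hc.trans (le_of_eq ?_)
  congr 1
  ring

end Pool.Agent.K4H80.LD
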