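import Pool.Agent.K4H80.LDim.Upper
import Pool.Agent.K4H80.LDim.Lower

namespace Pool.Agent.K4H80.LD

open Finset Filter Topology

theorem upperR (ε₀ : ℝ) (h0 : 0 < ε₀) (h1 : ε₀ ≤ 1) :
    ∀ᶠ n : ℕ in atTop, ∀ t : ℕ, 2 ≤ t → (M t n : ℝ) * Real.logb 2 n / n ≤ 1 / 4 + ε₀ := by
  obtain ⟨c, hc⟩ := exists_nat_gt (16 / ε₀)
  have hcR : (0 : ℝ) < c := lt_trans (by positivity) hc
  have hc0 : 0 < c := by exact_mod_cast hcR
  have hc1 : 1 / (c : ℝ) ≤ ε₀ / 16 := by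
    rw [div_le_iff₀ hcR]
    rw [div_lt_iff₀ h0] at hc
    linarith
  obtain ⟨γ, hγ, hγc⟩ := small_subsets c hc0
  set θ : ℝ := min (ε₀ / 32) (ε₀ * γ / 16) with hθ
  have hθ0 : 0 < θ := lt_min (by positivity) (by positivity)
  have hθ1 : θ ≤ ε₀ / 32 := min_le_left _ _
  have hθ2 : θ / γ ≤ ε₀ / 16 := by
    rw [div_le_iff₀ hγ]
    refine (min_le_right _ _).trans (le_of_eq ?_); ring
  obtain ⟨K, n₁, hK⟩ := explicit c hc0 γ hγ (fun b {P} S hS => hγc b S hS) θ hθ0 (by linarith)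
  set δ : ℝ := ε₀ / 2 with hδ
  have hδ0 : 0 < δ := by positivity
  have hδ1 : δ ≤ 1 / 2 := by rw [hδ]; linarith
  set A : ℝ := c + 2 * K * c + 4 with hA
  have hA0 : 0 ≤ A := by positivity
  have hℓ : Tendsto (fun n : ℕ => Real.logb 2 (n : ℝ)) atTop atTop :=
    (Real.tendsto_logb_atTop (by norm_num)).comp tendsto_natCast_atTop_atTop
  have hb : Tendsto (fun n : ℕ => ((⌊(1 - δ) * Real.logb 2 (n : ℝ)⌋₊ : ℕ) : ℝ) /
      Real.logb 2 (n : ℝ)) atTop (𝓝 (1 - δ)) :=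
    (tendsto_nat_floor_mul_div_atTop (R := ℝ) (by linarith)).comp hℓ
  have hinv : Tendsto (fun n : ℕ => Real.logb 2 (n : ℝ) /
      ((⌊(1 - δ) * Real.logb 2 (n : ℝ)⌋₊ : ℕ) : ℝ)) atTop (𝓝 (1 - δ)⁻¹) := by
    refine (hb.inv₀ (by linarith)).congr fun n => ?_
    rw [inv_div]
  have hsm : Tendsto (fun n : ℕ => Real.log (n : ℝ) / (n : ℝ) ^ δ) atTop (𝓝 0) :=
    ((isLittleO_log_rpow_atTop hδ0).tendsto_div_nhds_zero).comp tendsto_natCast_atTop_atTop
  have hF : Tendsto (fun n : ℕ => Real.logb 2 (n : ℝ) /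
      ((⌊(1 - δ) * Real.logb 2 (n : ℝ)⌋₊ : ℕ) : ℝ) * (1 / 4 + 1 / c + θ / γ + 2 * θ) +
      (9 + A) / Real.log 2 * (Real.log (n : ℝ) / (n : ℝ) ^ δ)) atTop
      (𝓝 ((1 - δ)⁻¹ * (1 / 4 + 1 / c + θ / γ + 2 * θ) + (9 + A) / Real.log 2 * 0)) :=
    (hinv.mul_const _).add (hsm.const_mul _)
  have hlim : (1 - δ)⁻¹ * (1 / 4 + 1 / c + θ / γ + 2 * θ) + (9 + A) / Real.log 2 * 0 <
      1 / 4 + ε₀ := by
    rw [mul_zero, add_zero, inv_mul_lt_iff₀ (by linarith)]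
    have : 1 / 4 + 1 / (c : ℝ) + θ / γ + 2 * θ ≤ 1 / 4 + ε₀ / 4 := by linarith
    rw [hδ]
    nlinarith
  have hev := hF.eventually_lt_const hlim
  filter_upwards [hev, eventually_ge_atTop n₁, eventually_ge_atTop 2,
    hℓ.eventually_ge_atTop (2 / (1 - δ) + 1)] with n hn1 hn2 hn3 hn4 t ht
  have hnR : (2 : ℝ) ≤ n := by exact_mod_cast hn3
  have hn0 : (0 : ℝ) < n := by linarith
  set ℓ := Real.logb 2 (n : ℝ) with hℓdef
  have hδ2 : 0 < 1 - δ := by linarith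
  have hℓ0 : 0 < ℓ := by
    have : 0 < 2 / (1 - δ) := by positivity
    linarith
  set b := ⌊(1 - δ) * ℓ⌋₊ with hbdef
  have hb0 : 0 < b := by
    rw [hbdef, Nat.floor_pos]
    have h3 : (1 - δ) * (2 / (1 - δ) + 1) ≤ (1 - δ) * ℓ := by gcongr
    have h4 : (1 - δ) * (2 / (1 - δ) + 1) = 2 + (1 - δ) := by field_simp
    linarith
  have hbR : (0 : ℝ) < b := by exact_mod_cast hb0
  have h2b : (2 : ℝ) ^ b ≤ (n : ℝ) ^ (1 - δ) := by
    calc (2 : ℝ) ^ b = (2 : ℝ) ^ (b : ℝ) := (Real.rpow_natCast _ _).symm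
      _ ≤ (2 : ℝ) ^ ((1 - δ) * ℓ) := by
          apply Real.rpow_le_rpow_of_exponent_le (by norm_num)
          exact Nat.floor_le (by positivity)
      _ = (n : ℝ) ^ (1 - δ) := by
          rw [mul_comm, Real.rpow_mul (by norm_num), hℓdef, Real.rpow_logb (by norm_num)
            (by norm_num) hn0]
  have hsq : Real.sqrt n ≤ (n : ℝ) ^ (1 - δ) := by
    rw [Real.sqrt_eq_rpow]
    apply Real.rpow_le_rpow_of_exponent_le (by linarith)
    linarith
  have hone : 1 ≤ (n : ℝ) ^ (1 - δ) := Real.one_le_rpow (by linarith) hδ2.le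
  have hall : ∀ o : PartialOrder (Fin n), @ldim (Fin n) o t ≤
      ⌊(n : ℝ) / b * (1 / 4 + 1 / c + θ / γ + 2 * θ) + (9 + A) * (n : ℝ) ^ (1 - δ)⌋₊ := by
    intro o
    have h3 := hK n hn2 o b hb0 t ht
    apply Nat.le_floor
    refine h3.trans ?_
    have h4 : A ≤ A * (n : ℝ) ^ (1 - δ) := le_mul_of_one_le_right hA0 hone
    have h5 : 2 * Real.sqrt n + 7 * 2 ^ b + (c + 2 * K * c + 4) ≤ (9 + A) * (n : ℝ) ^ (1 - δ) := by
      rw [← hA]
      nlinarith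
    linarith
  have hM := M_le hall
  have hMR : (M t n : ℝ) ≤ (n : ℝ) / b * (1 / 4 + 1 / c + θ / γ + 2 * θ) +
      (9 + A) * (n : ℝ) ^ (1 - δ) := by
    have h3 : (M t n : ℝ) ≤ ((⌊(n : ℝ) / b * (1 / 4 + 1 / c + θ / γ + 2 * θ) +
      (9 + A) * (n : ℝ) ^ (1 - δ)⌋₊ : ℕ) : ℝ) := by exact_mod_cast hM
    refine h3.trans (Nat.floor_le ?_)
    positivity
  have hfin : (M t n : ℝ) * ℓ / n ≤ ℓ / b * (1 / 4 + 1 / c + θ / γ + 2 * θ) +
      (9 + A) / Real.log 2 * (Real.log (n : ℝ) / (n : ℝ) ^ δ) := by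
    rw [div_le_iff₀ hn0]
    have h3 : (n : ℝ) ^ (1 - δ) = n / (n : ℝ) ^ δ := by
      rw [Real.rpow_sub hn0, Real.rpow_one]
    have h4 : ℓ = Real.log n / Real.log 2 := rfl
    have hpos : 0 < (n : ℝ) ^ δ := Real.rpow_pos_of_pos hn0 _
    have hl2 : 0 < Real.log 2 := Real.log_pos (by norm_num)
    calc (M t n : ℝ) * ℓ ≤ ((n : ℝ) / b * (1 / 4 + 1 / c + θ / γ + 2 * θ) +
          (9 + A) * (n : ℝ) ^ (1 - δ)) * ℓ := by gcongr
      _ = _ := by
          rw [h3]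
          have h5 : (9 + A) * ((n : ℝ) / (n : ℝ) ^ δ) * ℓ =
              (9 + A) / Real.log 2 * (Real.log (n : ℝ) / (n : ℝ) ^ δ) * n := by
            rw [h4]; field_simp
          rw [add_mul, h5]
          ring
  exact hfin.trans hn1.le

theorem lowerR (ε₀ : ℝ) (h0 : 0 < ε₀) :
    ∀ᶠ n : ℕ in atTop, ∀ t : ℕ, 2 ≤ t → 1 / 4 - ε₀ ≤ (M t n : ℝ) * Real.logb 2 n / n := by
  have hℓ : Tendsto (fun n : ℕ => Real.logb 2 (n : ℝ)) atTop atTop :=
    (Real.tendsto_logb_atTop (by norm_num)).comp tendsto_natCast_atTop_atTop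
  have h1 : Tendsto (fun n : ℕ => 1 - 1 / ((n : ℝ)) ^ 2) atTop (𝓝 (1 - 0)) := by
    refine tendsto_const_nhds.sub ?_
    have := (tendsto_pow_atTop (α := ℝ) (n := 2) (by norm_num)).comp tendsto_natCast_atTop_atTop
    exact (tendsto_inv_atTop_zero.comp this).congr fun n => by simp [one_div]
  have h2 : Tendsto (fun x : ℝ => x / (x + 3)) atTop (𝓝 1) := by
    have h3 : Tendsto (fun x : ℝ => 1 - 3 / (x + 3)) atTop (𝓝 (1 - 0)) := by
      refine tendsto_const_nhds.sub ?_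
      exact tendsto_const_nhds.div_atTop (tendsto_atTop_add_const_right _ _ tendsto_id)
    rw [sub_zero] at h3
    refine h3.congr' ?_
    filter_upwards [eventually_gt_atTop 0] with x hx
    field_simp
    ring
  have hF : Tendsto (fun n : ℕ => (1 - 1 / ((n : ℝ)) ^ 2) / 4 *
      (Real.logb 2 (n : ℝ) / (Real.logb 2 (n : ℝ) + 3))) atTop (𝓝 ((1 - 0) / 4 * 1)) :=
    (h1.div_const 4).mul (h2.comp hℓ)
  have hev := hF.eventually_const_lt (u := 1 / 4 - ε₀) (by norm_num; exact h0)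
  filter_upwards [hev, eventually_ge_atTop 2] with n hn1 hn2 t ht
  refine hn1.le.trans ?_
  have hnR : (2 : ℝ) ≤ n := by exact_mod_cast hn2
  have hn0 : (0 : ℝ) < n := by linarith
  have hlow := lower (n / 2) (n - n / 2) t ht
  have hsum : n / 2 + (n - n / 2) = n := by omega
  rw [hsum] at hlow
  have hlowR : (2 : ℝ) ^ (n / 2 * (n - n / 2)) ≤ (4 * n + 1) ^ (n * M t n) := by
    exact_mod_cast hlow
  have h3 : ((n / 2 * (n - n / 2) : ℕ) : ℝ) ≤ (n * M t n : ℕ) * Real.logb 2 (4 * n + 1) := by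
    have := Real.logb_le_logb_of_le (b := 2) (by norm_num) (by positivity) hlowR
    rw [Real.logb_pow, Real.logb_pow, Real.logb_self_eq_one (by norm_num), mul_one] at this
    exact this
  have h4 : ((n : ℝ) ^ 2 - 1) / 4 ≤ ((n / 2 * (n - n / 2) : ℕ) : ℝ) := by
    have : n ^ 2 ≤ 4 * (n / 2 * (n - n / 2)) + 1 := by
      rcases Nat.even_or_odd' n with ⟨k, hk | hk⟩
      · have e1 : n / 2 = k := by omega
        have e2 : n - n / 2 = k := by omega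
        rw [e1, hk]
        have : 2 * k - k = k := by omega
        rw [this]; nlinarith
      · have e1 : n / 2 = k := by omega
        rw [e1, hk]
        have : 2 * k + 1 - k = k + 1 := by omega
        rw [this]; nlinarith
    have h5 : ((n : ℝ)) ^ 2 ≤ 4 * ((n / 2 * (n - n / 2) : ℕ) : ℝ) + 1 := by exact_mod_cast this
    linarith
  set ℓ := Real.logb 2 (n : ℝ) with hℓdef
  have hℓ0 : 0 < ℓ := Real.logb_pos (by norm_num) (by linarith)
  have h6 : Real.logb 2 (4 * n + 1) ≤ ℓ + 3 := by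
    calc Real.logb 2 (4 * n + 1) ≤ Real.logb 2 (n * 2 ^ 3) := by
          apply Real.logb_le_logb_of_le (by norm_num) (by positivity)
          linarith
      _ = ℓ + 3 := by
          rw [Real.logb_mul hn0.ne' (by norm_num), Real.logb_pow,
            Real.logb_self_eq_one (by norm_num)]
          norm_num
          exact hℓdef.symm
  have h7 : ((n : ℝ) ^ 2 - 1) / 4 ≤ n * M t n * (ℓ + 3) := by
    refine h4.trans (h3.trans ?_)
    push_cast
    gcongr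
  have h8 : (1 - 1 / (n : ℝ) ^ 2) / 4 * (ℓ / (ℓ + 3)) =
      ((n : ℝ) ^ 2 - 1) / 4 * (ℓ / (ℓ + 3)) / n ^ 2 := by
    field_simp
  rw [h8, div_le_iff₀ (by positivity)]
  calc ((n : ℝ) ^ 2 - 1) / 4 * (ℓ / (ℓ + 3)) ≤ n * M t n * (ℓ + 3) * (ℓ / (ℓ + 3)) := by
        gcongr
    _ = (M t n : ℝ) * ℓ / n * n ^ 2 := by field_simp

theorem both (ε : ℝ) (hε : 0 < ε) :
    ∃ n₀ : ℕ, ∀ n : ℕ, n₀ ≤ n → ∀ t : ℕ, 2 ≤ t →
      |(M t n : ℝ) * Real.logb 2 n / n - 1 / 4| ≤ ε := by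
  have h1 := upperR (min ε 1) (lt_min hε one_pos) (min_le_right _ _)
  have h2 := lowerR ε hε
  obtain ⟨n₀, hn₀⟩ := (h1.and h2).exists_forall_of_atTop
  refine ⟨n₀, fun n hn t ht => ?_⟩
  have h3 := (hn₀ n hn).1 t ht
  have h4 := (hn₀ n hn).2 t ht
  rw [abs_le]
  constructor
  · linarith
  · have := min_le_left ε 1
    linarith

theorem tends (t : ℕ) (ht : 2 ≤ t) :
    Tendsto (fun n : ℕ => (M t n : ℝ) / (n / (4 * Real.logb 2 n))) atTop (𝓝 1) := by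
  have h : Tendsto (fun n : ℕ => (M t n : ℝ) * Real.logb 2 n / n) atTop (𝓝 (1 / 4)) := by
    rw [Metric.tendsto_atTop]
    intro ε hε
    obtain ⟨n₀, hn₀⟩ := both (ε / 2) (by positivity)
    refine ⟨n₀, fun n hn => ?_⟩
    rw [Real.dist_eq]
    have := hn₀ n hn t ht
    linarith
  have h2 := h.const_mul 4
  norm_num at h2
  refine h2.congr fun n => ?_
  rw [div_div_eq_mul_div]
  ring

theorem ratio (t : ℕ) (ht : 2 ≤ t) :
    Tendsto (fun n : ℕ => (M t n : ℝ) / M 2 n) atTop (𝓝 1) := by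
  have h1 := tends t ht
  have h2 := tends 2 le_rfl
  have h3 := h1.div h2 one_ne_zero
  rw [div_one] at h3
  refine h3.congr' ?_
  filter_upwards [eventually_ge_atTop 2] with n hn
  have hnR : (2 : ℝ) ≤ n := by exact_mod_cast hn
  have hn0 : (0 : ℝ) < n := by linarith
  have hℓ0 : 0 < Real.logb 2 (n : ℝ) := Real.logb_pos (by norm_num) (by linarith)
  have : (n : ℝ) / (4 * Real.logb 2 n) ≠ 0 := by positivity
  rw [Pi.div_apply, div_div_div_cancel_right₀ this]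

end Pool.Agent.K4H80.LD
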