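import Pool.Agent.K4H80.LDim.Cover

namespace Pool.Agent.K4H80.LD

open Finset

open Classical in
/-- number of non-adjacent pairs in a product -/
theorem nonadj_count {V : Type} (G : SimpleGraph V) (A T : Finset V) :
    ∑ y ∈ T, (#{x ∈ A | ¬ G.Adj x y} : ℝ) = (1 - (G.edgeDensity A T : ℝ)) * (#A * #T) := by
  have h1 : (#(G.interedges A T) : ℝ) = (G.edgeDensity A T : ℝ) * (#A * #T) := by
    rw [SimpleGraph.edgeDensity_def]
    push_cast
    rcases A.eq_empty_or_nonempty with rfl | hA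
    · simp
    rcases T.eq_empty_or_nonempty with rfl | hT
    · simp [SimpleGraph.interedges_def]
    have hA' : (#A : ℝ) ≠ 0 := by exact_mod_cast hA.card_pos.ne'
    have hT' : (#T : ℝ) ≠ 0 := by exact_mod_cast hT.card_pos.ne'
    field_simp
  have h2 : ∑ y ∈ T, #{x ∈ A | G.Adj x y} = #(G.interedges A T) := by
    rw [SimpleGraph.interedges_def, card_filter, sum_product_right]
    refine sum_congr rfl fun y _ => ?_
    rw [card_filter]
  have h3 : ∀ y ∈ T, (#{x ∈ A | ¬ G.Adj x y} : ℝ) = #A - #{x ∈ A | G.Adj x y} := by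
    intro y _
    have := card_filter_add_card_filter_not (s := A) (fun x => G.Adj x y)
    rw [← this]
    push_cast
    ring
  rw [sum_congr rfl h3, sum_sub_distrib, sum_const, nsmul_eq_mul]
  have h4 : ∑ y ∈ T, (#{x ∈ A | G.Adj x y} : ℝ) = (#(G.interedges A T) : ℝ) := by
    exact_mod_cast h2
  rw [h4, h1]
  ring

open Classical in
theorem few {V : Type} (G : SimpleGraph V) (ε μ η : ℝ) (hε0 : 0 < ε)
    (hε1 : ε ≤ μ) (hε2 : ε ≤ (η - ε) * μ) (hηε : 0 < η - ε) (s t A T : Finset V)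
    (hs : s.Nonempty) (ht : t.Nonempty) (hu : G.IsUniform ε s t) (hd : (G.edgeDensity s t : ℝ) ≤ 1 - η) (hA : A ⊆ s)
    (hAμ : μ * #s ≤ #A) (hT : T ⊆ t) (h : ∀ y ∈ T, (#{x ∈ A | ¬ G.Adj x y} : ℝ) < ε * #s) :
    (#T : ℝ) < ε * #t := by
  by_contra hcon
  have hcon := not_lt.1 hcon
  have hs0 : (0 : ℝ) < #s := by exact_mod_cast hs.card_pos
  have h1 := hu hA hT (by rw [mul_comm]; exact (mul_le_mul_of_nonneg_right hε1 hs0.le).trans hAμ)
    (by rw [mul_comm]; exact hcon)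
  rw [abs_lt] at h1
  have h2 : (G.edgeDensity A T : ℝ) < 1 - η + ε := by linarith [h1.2]
  have h3 := nonadj_count G A T
  have ht0 : (0 : ℝ) < #t := by exact_mod_cast ht.card_pos
  have hT0 : (0 : ℝ) < #T := lt_of_lt_of_le (mul_pos hε0 ht0) hcon
  have hTne : T.Nonempty := by
    rw [← card_pos]; exact_mod_cast hT0
  have h4 : ∑ y ∈ T, (#{x ∈ A | ¬ G.Adj x y} : ℝ) < ∑ y ∈ T, ε * #s :=
    sum_lt_sum_of_nonempty hTne h
  rw [h3, sum_const, nsmul_eq_mul] at h4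
  have h5 : (η - ε) * (μ * #s) * #T ≤ (1 - (G.edgeDensity A T : ℝ)) * (#A * #T) := by
    have hμs : 0 ≤ μ * (#s : ℝ) := mul_nonneg (by linarith) hs0.le
    calc (η - ε) * (μ * #s) * #T ≤ (1 - (G.edgeDensity A T : ℝ)) * (#A) * #T :=
          mul_le_mul_of_nonneg_right (mul_le_mul (by linarith) hAμ hμs (by linarith)) hT0.le
      _ = _ := by ring
  have h6 : (#T : ℝ) * (ε * #s) ≤ (η - ε) * (μ * #s) * #T := by
    calc (#T : ℝ) * (ε * #s) ≤ #T * ((η - ε) * μ * #s) := by gcongr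
      _ = _ := by ring
  linarith

/-- the incomparability graph -/
def IncG (V : Type) [PartialOrder V] : SimpleGraph V where
  Adj x y := Inc x y
  symm := ⟨fun _ _ h => h.symm⟩
  loopless := ⟨fun _ h => h.1 le_rfl⟩

open Classical in
theorem no_tri {V : Type} [PartialOrder V] (r : V → ℕ) (hr : ∀ x y, x ≤ y → r x ≤ r y)
    (ε μ η : ℝ) (hε0 : 0 < ε)
    (hε1 : ε ≤ μ) (hε2 : ε ≤ (η - ε) * μ) (hηε : 0 < η - ε) (hε3 : 2 * ε ≤ μ)
    (s1 s2 s3 A B E : Finset V) (h1 : s1.Nonempty) (h2 : s2.Nonempty) (h3 : s3.Nonempty)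
    (u12 : (IncG V).IsUniform ε s1 s2) (u32 : (IncG V).IsUniform ε s3 s2)
    (u13 : (IncG V).IsUniform ε s1 s3)
    (d12 : ((IncG V).edgeDensity s1 s2 : ℝ) ≤ 1 - η)
    (d32 : ((IncG V).edgeDensity s3 s2 : ℝ) ≤ 1 - η)
    (d13 : η ≤ ((IncG V).edgeDensity s1 s3 : ℝ))
    (hA : A ⊆ s1) (hB : B ⊆ s2) (hE : E ⊆ s3)
    (hAμ : μ * #s1 ≤ #A) (hBμ : μ * #s2 ≤ #B) (hEμ : μ * #s3 ≤ #E)
    (hAB : ∀ x ∈ A, ∀ y ∈ B, r x < r y) (hBE : ∀ x ∈ B, ∀ y ∈ E, r x < r y) : False := by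
  set T1 := {y ∈ B | (#{x ∈ A | ¬ (IncG V).Adj x y} : ℝ) < ε * #s1} with hT1
  set T3 := {y ∈ B | (#{x ∈ E | ¬ (IncG V).Adj x y} : ℝ) < ε * #s3} with hT3
  have f1 : (#T1 : ℝ) < ε * #s2 := by
    refine few (IncG V) ε μ η hε0 hε1 hε2 hηε s1 s2 A T1 h1 h2 u12 d12 hA hAμ
      ((filter_subset _ _).trans hB) ?_
    intro y hy
    exact (mem_filter.1 hy).2
  have f3 : (#T3 : ℝ) < ε * #s2 := by
    refine few (IncG V) ε μ η hε0 hε1 hε2 hηε s3 s2 E T3 h3 h2 u32 d32 hE hEμ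
      ((filter_subset _ _).trans hB) ?_
    intro y hy
    exact (mem_filter.1 hy).2
  have hs2 : (0 : ℝ) < #s2 := by exact_mod_cast h2.card_pos
  have f4 : (#(T1 ∪ T3) : ℝ) < #B := by
    have : (#(T1 ∪ T3) : ℝ) ≤ #T1 + #T3 := by exact_mod_cast card_union_le _ _
    have h5 : 2 * ε * #s2 ≤ μ * #s2 := by gcongr
    linarith
  have f5 : #(T1 ∪ T3) < #B := by exact_mod_cast f4
  obtain ⟨y, hyB, hy⟩ := exists_mem_notMem_of_card_lt_card f5
  rw [mem_union, not_or, hT1, hT3, mem_filter, mem_filter] at hy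
  have g1 : ε * #s1 ≤ (#{x ∈ A | ¬ (IncG V).Adj x y} : ℝ) := by
    by_contra h; exact hy.1 ⟨hyB, not_le.1 h⟩
  have g3 : ε * #s3 ≤ (#{x ∈ E | ¬ (IncG V).Adj x y} : ℝ) := by
    by_contra h; exact hy.2 ⟨hyB, not_le.1 h⟩
  set X := {x ∈ A | ¬ (IncG V).Adj x y} with hX
  set W := {x ∈ E | ¬ (IncG V).Adj x y} with hW
  have hXW : ∀ x ∈ X, ∀ z ∈ W, ¬ (IncG V).Adj x z := by
    intro x hx z hz
    rw [hX, mem_filter] at hx
    rw [hW, mem_filter] at hz
    have hxy : x ≤ y := by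
      by_contra hc
      apply hx.2
      exact ⟨hc, fun h' => absurd (hr _ _ h') (not_le.2 (hAB x hx.1 y hyB))⟩
    have hyz : y ≤ z := by
      by_contra hc
      apply hz.2
      exact ⟨fun h' => absurd (hr _ _ h') (not_le.2 (hBE y hyB z hz.1)), hc⟩
    intro h'
    exact h'.1 (hxy.trans hyz)
  have hd0 : (IncG V).edgeDensity X W = 0 := by
    rw [SimpleGraph.edgeDensity_def]
    have : (IncG V).interedges X W = ∅ := by
      rw [eq_empty_iff_forall_notMem]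
      rintro ⟨x, z⟩ h
      rw [SimpleGraph.mk_mem_interedges_iff] at h
      exact hXW x h.1 z h.2.1 h.2.2
    rw [this]
    simp
  have := u13 ((filter_subset _ _).trans hA : X ⊆ s1) ((filter_subset _ _).trans hE : W ⊆ s3)
    (by rw [mul_comm]; exact g1) (by rw [mul_comm]; exact g3)
  rw [hd0, abs_lt] at this
  push_cast at this
  linarith [this.1]

end Pool.Agent.K4H80.LD
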