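import Pool.Agent.K4H80.LDim.Struct

namespace Pool.Agent.K4H80.LD

open Finset

open Classical in
theorem fiber_bound {V : Type} [Fintype V] (P : Finpartition (univ : Finset V))
    (S : Finset (V × V)) (κ : ℝ)
    (h : ∀ U ∈ P.parts, ∀ W ∈ P.parts,
      (#{p ∈ S | P.part p.1 = U ∧ P.part p.2 = W} : ℝ) ≤ κ * (#U * #W)) :
    (#S : ℝ) ≤ κ * (Fintype.card V : ℝ) ^ 2 := by
  have h1 : #S = ∑ b ∈ P.parts ×ˢ P.parts, #{a ∈ S | (P.part a.1, P.part a.2) = b} := by
    apply card_eq_sum_card_fiberwise
    intro p _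
    rw [mem_coe, mem_product]
    exact ⟨P.part_mem.2 (mem_univ _), P.part_mem.2 (mem_univ _)⟩
  rw [h1]
  push_cast
  have h2 : ∀ b ∈ P.parts ×ˢ P.parts,
      (#{a ∈ S | (P.part a.1, P.part a.2) = b} : ℝ) ≤ κ * (#b.1 * #b.2) := by
    rintro ⟨U, W⟩ hb
    rw [mem_product] at hb
    have := h U hb.1 W hb.2
    simpa only [Prod.mk.injEq] using this
  refine (sum_le_sum h2).trans (le_of_eq ?_)
  rw [← mul_sum, sum_product]
  have h3 : ∑ U ∈ P.parts, (#U : ℝ) = Fintype.card V := by
    have := P.sum_card_parts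
    rw [card_univ] at this
    exact_mod_cast this
  have h4 : ∑ U ∈ P.parts, ∑ W ∈ P.parts, (#U : ℝ) * #W =
      (∑ U ∈ P.parts, (#U : ℝ)) * (∑ U ∈ P.parts, (#U : ℝ)) := by
    rw [sum_mul_sum]
  rw [h4, h3]
  ring

open Classical in
theorem struct_main (θ : ℝ) (hθ : 0 < θ) (hθ1 : θ ≤ 1) : ∃ K n₀ : ℕ,
    ∀ (V : Type) [Fintype V] [PartialOrder V], n₀ ≤ Fintype.card V →
    ∀ r : V → ℕ, Function.Injective r → (∀ x y, x ≤ y → r x ≤ r y) →
    (∀ x, r x < Fintype.card V) →
    ∃ (C : Type) (_ : Fintype C) (cell : V → C) (Mx : SimpleGraph C) (od : C → ℕ)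
      (D : C → C → Prop) (Bad : V → V → Prop),
      Fintype.card C ≤ K ∧ Mx.CliqueFree 3 ∧ (∀ k k', Mx.Adj k k' → od k ≠ od k') ∧
      (∀ x y, od (cell x) < od (cell y) → r x < r y) ∧
      (∀ x y, ¬ Mx.Adj (cell x) (cell y) → ¬ Bad x y → (Inc x y ↔ D (cell x) (cell y))) ∧
      (#{p : V × V | Bad p.1 p.2} : ℝ) ≤ θ * (Fintype.card V : ℝ) ^ 2 := by
  obtain ⟨m, hm⟩ := exists_nat_ge (16 / θ)
  have hm16 : (16 : ℝ) ≤ m := by
    refine le_trans ?_ hm
    rw [le_div_iff₀ hθ]; linarith
  have hm0 : (0 : ℝ) < m := by linarith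
  have hmn : 0 < m := by exact_mod_cast hm0
  have hm' : (16 : ℝ) ≤ θ * m := by
    rw [div_le_iff₀ hθ] at hm; linarith
  set η : ℝ := θ / 16 with hη
  set μ : ℝ := θ / (16 * m) with hμ
  set ε : ℝ := η * μ / 4 with hε
  have hη0 : 0 < η := by positivity
  have hμ0 : 0 < μ := by positivity
  have hε0 : 0 < ε := by positivity
  have hη1 : η ≤ 1 / 16 := by rw [hη]; linarith
  have hμ1 : μ ≤ 1 := by
    rw [hμ, div_le_one (by positivity)]
    linarith
  have hεη : ε ≤ η / 4 := by
    rw [hε]; nlinarith
  have hεμ : ε ≤ μ / 4 := by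
    rw [hε]; nlinarith
  have hε2 : ε ≤ (η - ε) * μ := by
    have : ε * μ ≤ η / 4 * μ := by gcongr
    rw [hε] at this ⊢
    nlinarith [mul_pos hη0 hμ0]
  refine ⟨SzemerediRegularity.bound ε m * m, m, ?_⟩
  intro V _ _ hn r hri hr hrn
  set n := Fintype.card V with hndef
  obtain ⟨P, hP, hPl, hPb, hPu⟩ := szemeredi_regularity (G := IncG V) hε0 hn
  have hn0 : 0 < n := lt_of_lt_of_le hmn hn
  have hnR : (0 : ℝ) < n := by exact_mod_cast hn0
  set h := n / m + 1 with hh
  have hh0 : 0 < h := Nat.succ_pos _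
  have hrm : ∀ x, r x / h < m := by
    intro x
    apply Nat.div_lt_of_lt_mul
    refine (hrn x).trans_le ?_
    rw [hh]
    have e1 := Nat.div_add_mod n m
    have e2 := Nat.mod_lt n hmn
    calc n = m * (n / m) + n % m := e1.symm
      _ ≤ m * (n / m) + m := by omega
      _ = (n / m + 1) * m := by ring
  let C : Type := {s // s ∈ P.parts} × Fin m
  let cell : V → C := fun x => (⟨P.part x, P.part_mem.2 (mem_univ x)⟩, ⟨r x / h, hrm x⟩)
  let inter : Finset V → ℕ → Finset V := fun s a => {v ∈ s | r v / h = a}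
  let big : C → Prop := fun k => μ * #k.1.val ≤ #(inter k.1.val k.2.val)
  let dd : Finset V → Finset V → ℝ := fun s t => ((IncG V).edgeDensity s t : ℝ)
  have hdd : ∀ s t, dd s t = dd t s := by
    intro s t
    simp only [dd]
    rw [SimpleGraph.edgeDensity_comm]
  let Mx : SimpleGraph C :=
    { Adj := fun k k' => k.2 ≠ k'.2 ∧ k.1.val ≠ k'.1.val ∧ (IncG V).IsUniform ε k.1.val k'.1.val ∧
        η ≤ dd k.1.val k'.1.val ∧ dd k.1.val k'.1.val ≤ 1 - η ∧ big k ∧ big k'
      symm := ⟨fun k k' hk => ⟨hk.1.symm, hk.2.1.symm, hk.2.2.1.symm,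
        by rw [hdd]; exact hk.2.2.2.1, by rw [hdd]; exact hk.2.2.2.2.1, hk.2.2.2.2.2.2,
        hk.2.2.2.2.2.1⟩⟩
      loopless := ⟨fun k hk => hk.1 rfl⟩ }
  have tri : ∀ k1 k2 k3 : C, k1.2 < k2.2 → k2.2 < k3.2 → Mx.Adj k1 k2 → Mx.Adj k2 k3 →
      Mx.Adj k1 k3 → False := by
    intro k1 k2 k3 h12 h23 a12 a23 a13
    refine no_tri r hr ε μ η hε0 (by linarith) hε2 (by linarith) (by linarith)
      k1.1.val k2.1.val k3.1.val (inter k1.1.val k1.2.val) (inter k2.1.val k2.2.val)
      (inter k3.1.val k3.2.val) (P.nonempty_of_mem_parts k1.1.2) (P.nonempty_of_mem_parts k2.1.2)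
      (P.nonempty_of_mem_parts k3.1.2) a12.2.2.1 a23.2.2.1.symm a13.2.2.1
      a12.2.2.2.2.1 ?_ a13.2.2.2.1 (filter_subset _ _) (filter_subset _ _) (filter_subset _ _)
      a12.2.2.2.2.2.1 a12.2.2.2.2.2.2 a13.2.2.2.2.2.2 ?_ ?_
    · have := a23.2.2.2.2.1
      rw [hdd] at this
      exact this
    · intro x hx y hy
      have e1 := (mem_filter.1 hx).2
      have e2 := (mem_filter.1 hy).2
      by_contra hc
      have := Nat.div_le_div_right (c := h) (not_lt.1 hc)
      rw [e1, e2] at this
      exact absurd h12 (not_lt.2 this)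
    · intro x hx y hy
      have e1 := (mem_filter.1 hx).2
      have e2 := (mem_filter.1 hy).2
      by_contra hc
      have := Nat.div_le_div_right (c := h) (not_lt.1 hc)
      rw [e1, e2] at this
      exact absurd h23 (not_lt.2 this)
  let D : C → C → Prop := fun k k' => 1 - η < dd k.1.val k'.1.val
  let Bad : V → V → Prop := fun x y => ¬ Mx.Adj (cell x) (cell y) ∧
    ¬ (Inc x y ↔ D (cell x) (cell y))
  refine ⟨C, inferInstance, cell, Mx, fun k => k.2.val, D, Bad, ?_, ?_, ?_, ?_, ?_, ?_⟩
  · show Fintype.card ({s // s ∈ P.parts} × Fin m) ≤ _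
    rw [Fintype.card_prod, Fintype.card_fin, Fintype.card_coe]
    exact Nat.mul_le_mul_right _ hPb
  · intro s hs
    rw [SimpleGraph.is3Clique_iff] at hs
    obtain ⟨k1, k2, k3, a12, a13, a23, -⟩ := hs
    rcases lt_or_gt_of_ne a12.1 with h12 | h12
    · rcases lt_or_gt_of_ne a23.1 with h23 | h23
      · exact tri k1 k2 k3 h12 h23 a12 a23 a13
      · rcases lt_or_gt_of_ne a13.1 with h13 | h13
        · exact tri k1 k3 k2 h13 h23 a13 a23.symm a12
        · exact tri k3 k1 k2 h13 h12 a13.symm a12 a23.symm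
    · rcases lt_or_gt_of_ne a13.1 with h13 | h13
      · exact tri k2 k1 k3 h12 h13 a12.symm a13 a23
      · rcases lt_or_gt_of_ne a23.1 with h23 | h23
        · exact tri k2 k3 k1 h23 h13 a23 a13.symm a12.symm
        · exact tri k3 k2 k1 h23 h12 a23.symm a12.symm a13.symm
  · intro k k' hk
    exact fun h' => hk.1 (Fin.ext h')
  · intro x y hxy
    by_contra hc
    have := Nat.div_le_div_right (c := h) (not_lt.1 hc)
    exact absurd hxy (not_lt.2 this)
  · intro x y h1 h2
    by_contra h3
    exact h2 ⟨h1, h3⟩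
  · -- counting the bad pairs
    set S1 : Finset (V × V) := {p | P.part p.1 = P.part p.2} with hS1
    set S2 : Finset (V × V) := {p | r p.1 / h = r p.2 / h} with hS2
    set S3 : Finset (V × V) := (P.nonUniforms (IncG V) ε).biUnion fun U => U.1 ×ˢ U.2 with hS3
    set S4 : Finset (V × V) := {p | ¬ big (cell p.1)} with hS4
    set S5 : Finset (V × V) := {p | ¬ big (cell p.2)} with hS5
    set S6 : Finset (V × V) := {p | Inc p.1 p.2 ∧ dd (P.part p.1) (P.part p.2) < η} with hS6
    set S7 : Finset (V × V) := {p | ¬ Inc p.1 p.2 ∧ 1 - η < dd (P.part p.1) (P.part p.2)} with hS7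
    have hsub : ({p : V × V | Bad p.1 p.2} : Finset (V × V)) ⊆
        S1 ∪ (S2 ∪ (S3 ∪ (S4 ∪ (S5 ∪ (S6 ∪ S7))))) := by
      rintro ⟨x, y⟩ hxy
      rw [mem_filter] at hxy
      obtain ⟨-, h1, h2⟩ := hxy
      simp only [mem_union]
      by_cases g1 : P.part x = P.part y
      · left; rw [hS1, mem_filter]; exact ⟨mem_univ _, g1⟩
      right
      by_cases g2 : r x / h = r y / h
      · left; rw [hS2, mem_filter]; exact ⟨mem_univ _, g2⟩
      right
      by_cases g3 : (IncG V).IsUniform ε (P.part x) (P.part y)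
      swap
      · left
        rw [hS3, mem_biUnion]
        refine ⟨(P.part x, P.part y), ?_, ?_⟩
        · rw [Finpartition.mk_mem_nonUniforms]
          exact ⟨P.part_mem.2 (mem_univ _), P.part_mem.2 (mem_univ _), g1, g3⟩
        · rw [mem_product]
          exact ⟨P.mem_part (mem_univ _), P.mem_part (mem_univ _)⟩
      right
      by_cases g4 : big (cell x)
      swap
      · left; rw [hS4, mem_filter]; exact ⟨mem_univ _, g4⟩
      right
      by_cases g5 : big (cell y)
      swap
      · left; rw [hS5, mem_filter]; exact ⟨mem_univ _, g5⟩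
      right
      by_cases g6 : 1 - η < dd (P.part x) (P.part y)
      · right
        rw [hS7, mem_filter]
        refine ⟨mem_univ _, ?_, g6⟩
        intro hinc
        exact h2 ⟨fun _ => g6, fun _ => hinc⟩
      · left
        rw [hS6, mem_filter]
        refine ⟨mem_univ _, ?_, ?_⟩
        · by_contra hinc
          exact h2 ⟨fun h' => absurd h' hinc, fun h' => absurd h' g6⟩
        · by_contra g7
          apply h1
          refine ⟨?_, g1, g3, not_lt.1 g7, not_lt.1 g6, g4, g5⟩
          intro h'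
          apply g2
          exact congrArg Fin.val h'
    have hpart : ∀ x, (#(P.part x) : ℝ) ≤ n / m + 1 := by
      intro x
      have h1 := hP.card_part_le_average_add_one (P.part_mem.2 (mem_univ x))
      rw [card_univ, ← hndef] at h1
      have h2 : n / #P.parts ≤ n / m := Nat.div_le_div_left hPl hmn
      have h3 : #(P.part x) ≤ n / m + 1 := h1.trans (by omega)
      have h4 : ((n / m : ℕ) : ℝ) ≤ (n : ℝ) / m := Nat.cast_div_le
      have h5 : (#(P.part x) : ℝ) ≤ ((n / m : ℕ) : ℝ) + 1 := by exact_mod_cast h3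
      linarith
    have hnm : (n : ℝ) / m + 1 ≤ θ / 8 * n := by
      have h1 : (n : ℝ) / m ≤ θ / 16 * n := by
        rw [div_le_iff₀ hm0]
        nlinarith
      have h2 : (1 : ℝ) ≤ θ / 16 * n := by
        have : (m : ℝ) ≤ n := by exact_mod_cast hn
        nlinarith
      linarith
    have b1 : (#S1 : ℝ) ≤ θ / 8 * n ^ 2 := by
      have h1 : #S1 = ∑ x : V, #(P.part x) := by
        rw [hS1, card_filter, ← univ_product_univ, sum_product]
        refine sum_congr rfl fun x _ => ?_
        rw [← card_filter]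
        congr 1
        ext y
        rw [mem_filter]
        simp only [mem_univ, true_and]
        rw [eq_comm, ← P.mem_part_iff_part_eq_part (mem_univ _) (mem_univ _)]
      rw [h1]
      push_cast
      calc ∑ x : V, (#(P.part x) : ℝ) ≤ ∑ x : V, θ / 8 * n :=
            sum_le_sum fun x _ => (hpart x).trans hnm
        _ = θ / 8 * n ^ 2 := by
            rw [sum_const, card_univ, nsmul_eq_mul, ← hndef]; ring
    have b2 : (#S2 : ℝ) ≤ θ / 8 * n ^ 2 := by
      have h1 : #S2 = ∑ x : V, #({y | r x / h = r y / h} : Finset V) := by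
        rw [hS2, card_filter, ← univ_product_univ, sum_product]
        refine sum_congr rfl fun x _ => ?_
        rw [← card_filter]
      rw [h1]
      push_cast
      have h2 : ∀ x : V, (#({y | r x / h = r y / h} : Finset V) : ℝ) ≤ θ / 8 * n := by
        intro x
        have h3 : #({y | r x / h = r y / h} : Finset V) ≤
            #(Ico (h * (r x / h)) (h * (r x / h) + h)) := by
          apply card_le_card_of_injOn r
          · intro y hy
            simp only [coe_filter, mem_univ, true_and, Set.mem_ofPred_eq] at hy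
            rw [Finset.coe_Ico, Set.mem_Ico]
            have e1 := Nat.div_add_mod (r y) h
            have e2 := Nat.mod_lt (r y) hh0
            rw [← hy] at e1
            omega
          · intro y _ z _ hyz
            exact hri hyz
        rw [Nat.card_Ico, Nat.add_sub_cancel_left] at h3
        have h4 : ((n / m : ℕ) : ℝ) ≤ (n : ℝ) / m := Nat.cast_div_le
        have h5 : (#({y | r x / h = r y / h} : Finset V) : ℝ) ≤ ((n / m : ℕ) : ℝ) + 1 := by
          exact_mod_cast h3
        linarith
      calc ∑ x : V, (#({y | r x / h = r y / h} : Finset V) : ℝ) ≤ ∑ x : V, θ / 8 * n :=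
            sum_le_sum fun x _ => h2 x
        _ = θ / 8 * n ^ 2 := by
            rw [sum_const, card_univ, nsmul_eq_mul, ← hndef]; ring
    have b3 : (#S3 : ℝ) ≤ θ / 8 * n ^ 2 := by
      have h1 := hP.sum_nonUniforms_lt (by
        rw [← card_pos, card_univ]; exact hn0) hε0 hPu
      rw [card_univ] at h1
      have h2 : 4 * ε ≤ θ / 8 := by
        have : 4 * ε = η * μ := by rw [hε]; ring
        rw [this, hη]
        nlinarith
      refine h1.le.trans ?_
      exact mul_le_mul_of_nonneg_right h2 (by positivity)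
    have hsmall : (#({x | ¬ big (cell x)} : Finset V) : ℝ) ≤ θ / 16 * n := by
      have h1 : #({x | ¬ big (cell x)} : Finset V) =
          ∑ k : C, #{x ∈ ({x | ¬ big (cell x)} : Finset V) | cell x = k} :=
        card_eq_sum_card_fiberwise (fun x _ => mem_univ _)
      rw [h1]
      push_cast
      have h2 : ∀ k : C, (#{x ∈ ({x | ¬ big (cell x)} : Finset V) | cell x = k} : ℝ) ≤
          μ * #k.1.val := by
        intro k
        rcases ({x ∈ ({x | ¬ big (cell x)} : Finset V) | cell x = k}).eq_empty_or_nonempty with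
          h0 | ⟨x0, hx0⟩
        · rw [h0]; simp only [card_empty, Nat.cast_zero]; positivity
        · rw [mem_filter, mem_filter] at hx0
          obtain ⟨⟨-, h3⟩, h4⟩ := hx0
          rw [h4] at h3
          have h5 := (not_le.1 h3).le
          refine le_trans ?_ h5
          have : {x ∈ ({x | ¬ big (cell x)} : Finset V) | cell x = k} ⊆
              inter k.1.val k.2.val := by
            intro x hx
            rw [mem_filter] at hx
            obtain ⟨-, rfl⟩ := hx
            exact mem_filter.2 ⟨P.mem_part (mem_univ _), rfl⟩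
          exact_mod_cast card_le_card this
      refine (sum_le_sum fun k _ => h2 k).trans (le_of_eq ?_)
      show ∑ k : {s // s ∈ P.parts} × Fin m, μ * (#k.1.val : ℝ) = _
      rw [Fintype.sum_prod_type]
      simp only [sum_const, card_univ, Fintype.card_fin, nsmul_eq_mul]
      rw [← mul_sum, ← mul_sum]
      have h3 : ∑ s : {s // s ∈ P.parts}, (#s.val : ℝ) = n := by
        rw [sum_coe_sort P.parts (fun s => (#s : ℝ))]
        have := P.sum_card_parts
        rw [card_univ] at this
        exact_mod_cast this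
      rw [h3, hμ]
      field_simp
    have b4 : (#S4 : ℝ) ≤ θ / 16 * n ^ 2 := by
      have h1 : S4 = ({x | ¬ big (cell x)} : Finset V) ×ˢ (univ : Finset V) := by
        ext ⟨x, y⟩
        rw [hS4, mem_filter, mem_product, mem_filter]
        simp
      rw [h1, card_product, card_univ, ← hndef]
      push_cast
      calc (#({x | ¬ big (cell x)} : Finset V) : ℝ) * n ≤ θ / 16 * n * n := by gcongr
        _ = _ := by ring
    have b5 : (#S5 : ℝ) ≤ θ / 16 * n ^ 2 := by
      have h1 : S5 = (univ : Finset V) ×ˢ ({x | ¬ big (cell x)} : Finset V) := by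
        ext ⟨x, y⟩
        rw [hS5, mem_filter, mem_product, mem_filter]
        simp
      rw [h1, card_product, card_univ, ← hndef]
      push_cast
      calc (n : ℝ) * (#({x | ¬ big (cell x)} : Finset V) : ℝ) ≤ n * (θ / 16 * n) := by gcongr
        _ = _ := by ring
    have hdens : ∀ U ∈ P.parts, ∀ W ∈ P.parts,
        (#((IncG V).interedges U W) : ℝ) = dd U W * (#U * #W) := by
      intro U hU W hW
      have hU' : (#U : ℝ) ≠ 0 := by exact_mod_cast (P.nonempty_of_mem_parts hU).card_pos.ne'
      have hW' : (#W : ℝ) ≠ 0 := by exact_mod_cast (P.nonempty_of_mem_parts hW).card_pos.ne'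
      simp only [dd]
      rw [SimpleGraph.edgeDensity_def]
      push_cast
      field_simp
    have b6 : (#S6 : ℝ) ≤ η * n ^ 2 := by
      apply fiber_bound P S6 η
      intro U hU W hW
      rcases ({p ∈ S6 | P.part p.1 = U ∧ P.part p.2 = W}).eq_empty_or_nonempty with
        h0 | ⟨p0, hp0⟩
      · rw [h0]; simp only [card_empty, Nat.cast_zero]; positivity
      · rw [mem_filter, hS6, mem_filter] at hp0
        obtain ⟨⟨-, -, h1⟩, h2, h3⟩ := hp0
        rw [h2, h3] at h1
        have : {p ∈ S6 | P.part p.1 = U ∧ P.part p.2 = W} ⊆ (IncG V).interedges U W := by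
          intro p hp
          rw [mem_filter, hS6, mem_filter] at hp
          obtain ⟨⟨-, h4, -⟩, rfl, rfl⟩ := hp
          rw [SimpleGraph.mem_interedges_iff]
          exact ⟨P.mem_part (mem_univ _), P.mem_part (mem_univ _), h4⟩
        calc (#{p ∈ S6 | P.part p.1 = U ∧ P.part p.2 = W} : ℝ) ≤ #((IncG V).interedges U W) := by
              exact_mod_cast card_le_card this
          _ = dd U W * (#U * #W) := hdens U hU W hW
          _ ≤ η * (#U * #W) := mul_le_mul_of_nonneg_right h1.le (by positivity)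
    have b7 : (#S7 : ℝ) ≤ η * n ^ 2 := by
      apply fiber_bound P S7 η
      intro U hU W hW
      rcases ({p ∈ S7 | P.part p.1 = U ∧ P.part p.2 = W}).eq_empty_or_nonempty with
        h0 | ⟨p0, hp0⟩
      · rw [h0]; simp only [card_empty, Nat.cast_zero]; positivity
      · rw [mem_filter, hS7, mem_filter] at hp0
        obtain ⟨⟨-, -, h1⟩, h2, h3⟩ := hp0
        rw [h2, h3] at h1
        have : {p ∈ S7 | P.part p.1 = U ∧ P.part p.2 = W} ⊆
            (U ×ˢ W) \ (IncG V).interedges U W := by
          intro p hp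
          rw [mem_filter, hS7, mem_filter] at hp
          obtain ⟨⟨-, h4, -⟩, rfl, rfl⟩ := hp
          rw [mem_sdiff, mem_product]
          refine ⟨⟨P.mem_part (mem_univ _), P.mem_part (mem_univ _)⟩, ?_⟩
          intro h5
          rw [SimpleGraph.mem_interedges_iff] at h5
          exact h4 h5.2.2
        have h6 : (IncG V).interedges U W ⊆ U ×ˢ W := filter_subset _ _
        have h7 : (#((U ×ˢ W) \ (IncG V).interedges U W) : ℝ) =
            #U * #W - #((IncG V).interedges U W) := by
          rw [card_sdiff_of_subset h6, Nat.cast_sub (card_le_card h6), card_product]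
          push_cast
          ring
        calc (#{p ∈ S7 | P.part p.1 = U ∧ P.part p.2 = W} : ℝ) ≤
              #((U ×ˢ W) \ (IncG V).interedges U W) := by
              exact_mod_cast card_le_card this
          _ = (1 - dd U W) * (#U * #W) := by rw [h7, hdens U hU W hW]; ring
          _ ≤ η * (#U * #W) := mul_le_mul_of_nonneg_right (by linarith) (by positivity)
    have hcard : (#({p : V × V | Bad p.1 p.2} : Finset (V × V)) : ℝ) ≤
        #S1 + (#S2 + (#S3 + (#S4 + (#S5 + (#S6 + #S7))))) := by
      have h1 := card_le_card hsub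
      have h2 : #(S1 ∪ (S2 ∪ (S3 ∪ (S4 ∪ (S5 ∪ (S6 ∪ S7)))))) ≤
          #S1 + (#S2 + (#S3 + (#S4 + (#S5 + (#S6 + #S7))))) := by
        refine (card_union_le _ _).trans (Nat.add_le_add_left ?_ _)
        refine (card_union_le _ _).trans (Nat.add_le_add_left ?_ _)
        refine (card_union_le _ _).trans (Nat.add_le_add_left ?_ _)
        refine (card_union_le _ _).trans (Nat.add_le_add_left ?_ _)
        refine (card_union_le _ _).trans (Nat.add_le_add_left ?_ _)
        exact card_union_le _ _
      exact_mod_cast h1.trans h2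
    refine (le_of_eq ?_).trans (hcard.trans ?_)
    · congr!
    rw [hη] at b6 b7
    have : (0 : ℝ) ≤ θ * n ^ 2 := by positivity
    linarith

end Pool.Agent.K4H80.LD
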