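import Pool.Agent.K4H80.LDim.Assemble
import Pool.Agent.K4H80.LDim.Struct2

namespace Pool.Agent.K4H80.LD

open Finset Filter Topology

theorem exists_rank (V : Type) [Fintype V] [PartialOrder V] : ∃ r : V → ℕ,
    Function.Injective r ∧ (∀ x y, x ≤ y → r x ≤ r y) ∧ ∀ x, r x < Fintype.card V := by
  classical
  have : Fintype (LinearExtension V) := inferInstanceAs (Fintype V)
  have hc : Fintype.card (LinearExtension V) = Fintype.card V :=
    Fintype.card_congr ⟨fun x => x, fun x => x, fun _ => rfl, fun _ => rfl⟩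
  let e := Fintype.orderIsoFinOfCardEq (LinearExtension V) hc
  refine ⟨fun x => (e.symm (toLinearExtension x)).val, ?_, ?_, ?_⟩
  · intro x y h
    have h1 := e.symm.injective (Fin.ext h)
    exact h1
  · intro x y h
    have h1 := e.symm.monotone (toLinearExtension.monotone h)
    exact h1
  · intro x
    exact (e.symm (toLinearExtension x)).2

open Classical in
/-- the explicit load bound -/
theorem explicit (c : ℕ) (hc : 0 < c) (γ : ℝ) (hγ : 0 < γ)
    (hγc : ∀ (b : ℕ) {P : Type} (S : Finset P),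
      #S ≤ c * b → (#{T ∈ S.powerset | (#T : ℝ) ≤ γ * (c * b : ℕ)} : ℝ) ≤ 2 ^ b)
    (θ : ℝ) (hθ : 0 < θ) (hθ1 : θ ≤ 1) :
    ∃ K n₁ : ℕ, ∀ n : ℕ, n₁ ≤ n → ∀ o : PartialOrder (Fin n), ∀ b : ℕ, 0 < b → ∀ t : ℕ, 2 ≤ t →
      (@ldim (Fin n) o t : ℝ) ≤ n / b * (1 / 4 + 1 / c + θ / γ + 2 * θ) +
        (2 * Real.sqrt n + 7 * 2 ^ b + (c + 2 * K * c + 4)) := by
  obtain ⟨K, n₁, hK⟩ := struct_main (θ ^ 2) (by positivity) (by nlinarith)
  refine ⟨K, max n₁ 1, ?_⟩
  intro n hn o b hb t ht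
  have hn1 : n₁ ≤ n := (le_max_left _ _).trans hn
  have hn0 : 0 < n := lt_of_lt_of_le Nat.one_pos ((le_max_right _ _).trans hn)
  have hnR : (0 : ℝ) < n := by exact_mod_cast hn0
  have hbR : (0 : ℝ) < b := by exact_mod_cast hb
  have hcR : (0 : ℝ) < c := by exact_mod_cast hc
  obtain ⟨r, hri, hr, hrn⟩ := exists_rank (Fin n)
  obtain ⟨C, _, cell, Mx, od, D, Bad, hC, hM, hod, hod2, hBad, hBadc⟩ :=
    hK (Fin n) (by rw [Fintype.card_fin]; exact hn1) r hri hr hrn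
  rw [Fintype.card_fin] at hBadc
  set g : ℕ := ⌊γ * (c * b : ℕ)⌋₊ with hg
  set m : ℕ := ⌊θ * n⌋₊ with hm
  set Z0 : Finset (Fin n) := {y | ¬ #{x | Bad y x} ≤ m} with hZ0
  have hpT : ∀ S : Finset (Fin n), #S ≤ c * b → #{T ∈ S.powerset | #T ≤ g} ≤ 2 ^ b := by
    intro S hS
    have h1 := hγc b S hS
    have h2 : {T ∈ S.powerset | #T ≤ g} = {T ∈ S.powerset | (#T : ℝ) ≤ γ * (c * b : ℕ)} := by
      apply filter_congr
      intro T _
      rw [hg, Nat.le_floor_iff (by positivity)]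
    rw [h2]
    exact_mod_cast h1
  have hcov := assemble r hri hr (Nat.sqrt n + 1) (fun x => by
      have h1 := hrn x
      rw [Fintype.card_fin] at h1
      exact h1.trans (Nat.lt_succ_sqrt n)) cell Mx hM od hod hod2 D Bad hBad b c hb hc g (2 ^ b)
      hpT Z0 m (fun y hy => by
        by_contra h
        exact hy (mem_filter.2 ⟨mem_univ _, h⟩))
  rw [Fintype.card_fin] at hcov
  have hl := ldim_le_of_cov ht hcov
  have hlR : (ldim (Fin n) t : ℝ) ≤ ((2 * (Nat.sqrt n + 1) +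
      ((n / (c * b) + 2 * 2 ^ b) + ((c * (m / (g + 1)) + 2 ^ b) +
        ((c * (n / (c * b) / 4 + 1) + 2 * 2 ^ b) +
          (2 * ((#Z0 + Fintype.card C * (c * b)) / b + 1) + 2 * 2 ^ b)))) : ℕ) : ℝ) := by
    exact_mod_cast hl
  refine hlR.trans ?_
  -- bounds for the individual terms
  have e1 : ((Nat.sqrt n : ℕ) : ℝ) ≤ Real.sqrt n := Real.nat_sqrt_le_real_sqrt
  have e2 : ((n / (c * b) : ℕ) : ℝ) ≤ n / b * (1 / c) := by
    refine (Nat.cast_div_le).trans (le_of_eq ?_)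
    push_cast
    field_simp
  have e3 : ((m / (g + 1) : ℕ) : ℝ) * c ≤ n / b * (θ / γ) := by
    have h1 : ((m / (g + 1) : ℕ) : ℝ) ≤ (m : ℝ) / ((g + 1 : ℕ) : ℝ) := Nat.cast_div_le
    have h2 : (m : ℝ) ≤ θ * n := Nat.floor_le (by positivity)
    have h3 : γ * (c * b : ℕ) ≤ ((g + 1 : ℕ) : ℝ) := by
      rw [Nat.cast_add, Nat.cast_one, hg]
      exact (Nat.lt_floor_add_one _).le
    have h4 : (m : ℝ) / ((g + 1 : ℕ) : ℝ) ≤ θ * n / (γ * (c * b : ℕ)) := by
      apply div_le_div₀ (by positivity) h2 (by positivity) h3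
    calc ((m / (g + 1) : ℕ) : ℝ) * c ≤ θ * n / (γ * (c * b : ℕ)) * c := by
          exact mul_le_mul_of_nonneg_right (h1.trans h4) hcR.le
      _ = n / b * (θ / γ) := by push_cast; field_simp
  have e4 : ((n / (c * b) / 4 : ℕ) : ℝ) * c ≤ n / b * (1 / 4) := by
    have h1 : ((n / (c * b) / 4 : ℕ) : ℝ) ≤ ((n / (c * b) : ℕ) : ℝ) / 4 := by
      have := @Nat.cast_div_le ℝ _ _ _ (n / (c * b)) 4
      exact_mod_cast this
    have h2 : ((n / (c * b) : ℕ) : ℝ) ≤ (n : ℝ) / ((c * b : ℕ) : ℝ) := Nat.cast_div_le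
    calc ((n / (c * b) / 4 : ℕ) : ℝ) * c ≤ (n : ℝ) / ((c * b : ℕ) : ℝ) / 4 * c := by
          apply mul_le_mul_of_nonneg_right _ hcR.le
          linarith
      _ = n / b * (1 / 4) := by push_cast; field_simp
  have e5 : (#Z0 : ℝ) ≤ θ * n := by
    have h1 : ∑ y ∈ Z0, (θ * n) ≤ ∑ y ∈ Z0, (#{x | Bad y x} : ℝ) := by
      refine sum_le_sum fun y hy => ?_
      have h2 := not_le.1 (mem_filter.1 hy).2
      have h3 : m + 1 ≤ #{x | Bad y x} := h2
      have h4 : (m : ℝ) + 1 ≤ #{x | Bad y x} := by exact_mod_cast h3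
      exact (Nat.lt_floor_add_one (θ * n)).le.trans h4
    have h2 : ∑ y ∈ Z0, (#{x | Bad y x} : ℝ) ≤ θ ^ 2 * n ^ 2 := by
      refine le_trans ?_ hBadc
      have h3 : ∑ y ∈ Z0, #{x | Bad y x} ≤ ∑ y : Fin n, #{x | Bad y x} :=
        sum_le_sum_of_subset (subset_univ _)
      have h4 : ∑ y : Fin n, #{x | Bad y x} = #{p : Fin n × Fin n | Bad p.1 p.2} := by
        rw [card_filter, ← univ_product_univ, sum_product]
        refine sum_congr rfl fun x _ => ?_
        rw [card_filter]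
      rw [h4] at h3
      exact_mod_cast h3
    rw [sum_const, nsmul_eq_mul] at h1
    have h3 : (#Z0 : ℝ) * (θ * n) ≤ (θ * n) * (θ * n) := by
      refine h1.trans (h2.trans (le_of_eq ?_)); ring
    exact le_of_mul_le_mul_right h3 (by positivity)
  have e6 : (((#Z0 + Fintype.card C * (c * b)) / b : ℕ) : ℝ) ≤ n / b * θ + K * c := by
    have h1 : (((#Z0 + Fintype.card C * (c * b)) / b : ℕ) : ℝ) ≤
        ((#Z0 + Fintype.card C * (c * b) : ℕ) : ℝ) / b := Nat.cast_div_le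
    refine h1.trans ?_
    rw [div_le_iff₀ hbR]
    push_cast
    have h2 : (Fintype.card C : ℝ) ≤ K := by exact_mod_cast hC
    have h3 : (Fintype.card C : ℝ) * (c * b) ≤ K * (c * b) := by gcongr
    have h4 : (n / b * θ + K * c) * (b : ℝ) = θ * n + K * (c * b) := by
      field_simp
    rw [h4]
    linarith
  push_cast at e2 e3 e4 e6 ⊢
  have e7 : (n : ℝ) / b * (1 / 4 + 1 / c + θ / γ + 2 * θ) =
      n / b * (1 / 4) + n / b * (1 / c) + n / b * (θ / γ) + 2 * (n / b * θ) := by ring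
  rw [e7]
  nlinarith [e1, e2, e3, e4, e5, e6]

end Pool.Agent.K4H80.LD
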